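import Mathlib

set_option autoImplicit false

/-!
Part A: products of values at roots (resultants) over an algebraic closure of a finite field.
-/

namespace Pool.Agent.helper36.FF

open Polynomial

variable {F : Type*} [Field F]

/-- The product of the values of `B` at the roots of `A` in an algebraic closure. -/
noncomputable def RR (A B : F[X]) : AlgebraicClosure F :=
  ((A.aroots (AlgebraicClosure F)).map (fun α => aeval α B)).prod

lemma RR_mul_right (A B C : F[X]) : RR A (B * C) = RR A B * RR A C := by
  unfold RR
  simp only [map_mul]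
  rw [Multiset.prod_map_mul]

lemma RR_mul_left {A B : F[X]} (hA : A ≠ 0) (hB : B ≠ 0) (C : F[X]) :
    RR (A * B) C = RR A C * RR B C := by
  unfold RR
  rw [aroots_mul (mul_ne_zero hA hB), Multiset.map_add, Multiset.prod_add]

lemma RR_congr {A B C : F[X]} (h : A ∣ B - C) : RR A B = RR A C := by
  unfold RR
  congr 1
  apply Multiset.map_congr rfl
  intro α hα
  obtain ⟨D, hD⟩ := h
  have hα' : aeval α A = 0 := by
    by_cases hA : A = 0
    · simp [hA]
    · exact (mem_aroots'.mp hα).2
  have : aeval α (B - C) = 0 := by rw [hD, map_mul, hα', zero_mul]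
  rwa [map_sub, sub_eq_zero] at this

lemma aeval_monic {B : F[X]} (hB : B.Monic) (x : AlgebraicClosure F) :
    aeval x B = ((B.aroots (AlgebraicClosure F)).map (fun β => x - β)).prod := by
  have h := IsAlgClosed.splits (B.map (algebraMap F (AlgebraicClosure F)))
  have h2 := h.eval_eq_prod_roots_of_monic (hB.map _) x
  rw [eval_map_algebraMap] at h2
  exact h2

lemma card_aroots (B : F[X]) : Multiset.card (B.aroots (AlgebraicClosure F)) = B.natDegree := by
  have h := IsAlgClosed.splits (B.map (algebraMap F (AlgebraicClosure F)))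
  have := h.natDegree_eq_card_roots
  rw [natDegree_map] at this
  exact this.symm

lemma RR_symm {A B : F[X]} (hA : A.Monic) (hB : B.Monic) :
    RR A B = (-1) ^ (A.natDegree * B.natDegree) * RR B A := by
  unfold RR
  have h1 : ∀ α : AlgebraicClosure F, aeval α B
      = ((B.aroots (AlgebraicClosure F)).map (fun β => α - β)).prod := aeval_monic hB
  have h2 : ∀ β : AlgebraicClosure F, aeval β A
      = ((A.aroots (AlgebraicClosure F)).map (fun α => β - α)).prod := aeval_monic hA
  simp_rw [h1]
  rw [Multiset.prod_map_prod_map]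
  have h3 : ∀ β : AlgebraicClosure F, ((A.aroots (AlgebraicClosure F)).map (fun α => α - β)).prod
      = (-1) ^ A.natDegree * aeval β A := by
    intro β
    rw [h2]
    have : ∀ α : AlgebraicClosure F, α - β = (-1) * (β - α) := fun α => by ring
    simp_rw [this]
    rw [Multiset.prod_map_mul, Multiset.map_const', Multiset.prod_replicate, card_aroots]
  simp_rw [h3]
  rw [Multiset.prod_map_mul, Multiset.map_const', Multiset.prod_replicate, card_aroots, ← pow_mul]

lemma RR_C (A : F[X]) (c : F) :
    RR A (C c) = (algebraMap F (AlgebraicClosure F) c) ^ A.natDegree := by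
  unfold RR
  simp only [aeval_C]
  rw [Multiset.map_const', Multiset.prod_replicate, card_aroots]

lemma RR_eq_resultant {A : F[X]} (hA : A.Monic) (B : F[X]) :
    RR A B = algebraMap F (AlgebraicClosure F) (resultant A B) := by
  have h := IsAlgClosed.splits (A.map (algebraMap F (AlgebraicClosure F)))
  have h2 := resultant_eq_prod_eval (A.map (algebraMap F (AlgebraicClosure F)))
    (B.map (algebraMap F (AlgebraicClosure F))) (B.natDegree) (by rw [natDegree_map]) h
  rw [natDegree_map, resultant_map_map] at h2
  rw [h2, (hA.map _).leadingCoeff, one_pow, one_mul]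
  unfold RR
  congr 1
  apply Multiset.map_congr rfl
  intro α _
  rw [eval_map_algebraMap]

lemma RR_ne_zero {A B : F[X]} (hA : A.Monic) (h : IsCoprime A B) : RR A B ≠ 0 := by
  rw [RR_eq_resultant hA]
  simp only [ne_eq, map_eq_zero]
  exact resultant_ne_zero A B h

section finite
variable [Fintype F]

/-- the square-root-of-one valued power map -/
noncomputable def psi (x : AlgebraicClosure F) : AlgebraicClosure F :=
  x ^ (Fintype.card F / 2)

lemma psi_mul (x y : AlgebraicClosure F) : psi (F := F) (x * y) = psi (F := F) x * psi (F := F) y := by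
  unfold psi; rw [mul_pow]

lemma psi_one : psi (F := F) 1 = 1 := by
  unfold psi; rw [one_pow]

lemma psi_pow (x : AlgebraicClosure F) (n : ℕ) : psi (F := F) (x ^ n) = psi (F := F) x ^ n := by
  unfold psi; rw [← pow_mul, ← pow_mul, mul_comm]

/-- `psi` has square one on nonzero elements of `F`. -/
lemma psi_sq_of_mem (hF : ringChar F ≠ 2) (c : F) (hc : c ≠ 0) :
    psi (F := F) (algebraMap F (AlgebraicClosure F) c) ^ 2 = 1 := by
  unfold psi
  rw [← pow_mul]
  have hodd : Fintype.card F % 2 = 1 := FiniteField.odd_card_of_char_ne_two hF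
  have : Fintype.card F / 2 * 2 = Fintype.card F - 1 := by omega
  rw [this, ← map_pow, FiniteField.pow_card_sub_one_eq_one c hc, map_one]

lemma psi_RR_sq (hF : ringChar F ≠ 2) {A B : F[X]} (hA : A.Monic) (h : IsCoprime A B) :
    psi (F := F) (RR A B) ^ 2 = 1 := by
  rw [RR_eq_resultant hA]
  exact psi_sq_of_mem hF _ (resultant_ne_zero A B h)

lemma two_ne_zero_cl (hF : ringChar F ≠ 2) : (2 : AlgebraicClosure F) ≠ 0 := by
  have h : (2 : F) ≠ 0 := Ring.two_ne_zero hF
  have : (2 : AlgebraicClosure F) = algebraMap F (AlgebraicClosure F) 2 := (map_ofNat _ 2).symm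
  rw [this]
  simpa using h

end finite

end Pool.Agent.helper36.FF
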