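import Mathlib
import Pool.Agent.helper36.FF.A

set_option autoImplicit false

/-!
Part B: roots of an irreducible polynomial over a finite field, and the value of
the resultant of `P` and its derivative under the quadratic character.
-/

namespace Pool.Agent.helper36.FF

open Polynomial

variable {F : Type*} [Field F] [Fintype F]

lemma aeval_pow_card (P : F[X]) (x : AlgebraicClosure F) (i : ℕ) :
    aeval (x ^ (Fintype.card F ^ i)) P = (aeval x P) ^ (Fintype.card F ^ i) := by
  induction i generalizing x with
  | zero => simp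
  | succ i ih =>
    have h1 : x ^ Fintype.card F ^ (i + 1) = FiniteField.frobeniusAlgHom F (AlgebraicClosure F) (x ^ Fintype.card F ^ i) := by
      rw [FiniteField.coe_frobeniusAlgHom]
      simp only
      rw [← pow_mul, pow_succ]
    rw [h1, aeval_algHom_apply, ih, FiniteField.coe_frobeniusAlgHom]
    simp only
    rw [← pow_mul, pow_succ]

lemma pow_card_pow_injective (i : ℕ) :
    Function.Injective (fun x : AlgebraicClosure F => x ^ (Fintype.card F ^ i)) := by
  induction i with
  | zero => intro x y h; simpa using h
  | succ i ih =>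
    intro x y h
    apply ih
    simp only at h ⊢
    rw [pow_succ, pow_mul, pow_mul] at h
    have : FiniteField.frobeniusAlgHom F (AlgebraicClosure F) (x ^ Fintype.card F ^ i)
        = FiniteField.frobeniusAlgHom F (AlgebraicClosure F) (y ^ Fintype.card F ^ i) := by
      rw [FiniteField.coe_frobeniusAlgHom]
      exact h
    exact (FiniteField.frobeniusAlgHom F (AlgebraicClosure F)).toRingHom.injective this

section irr
variable {P : F[X]} (hP : P.Monic) (hi : Irreducible P) {α : AlgebraicClosure F}
  (hα : aeval α P = 0)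
include hP hi hα

lemma dvd_of_aeval (G : F[X]) (hG : aeval α G = 0) : P ∣ G := by
  have h1 : P = minpoly F α := minpoly.eq_of_irreducible_of_monic hi hα hP
  rw [h1]
  exact minpoly.dvd F α hG

lemma root_pow_inj {i j : ℕ} (hij : i < j) (hj : j < P.natDegree) :
    α ^ (Fintype.card F ^ i) ≠ α ^ (Fintype.card F ^ j) := by
  intro h
  have h1 : α ^ Fintype.card F ^ (j - i) = α := by
    apply pow_card_pow_injective i
    simp only
    rw [← pow_mul, ← pow_add, Nat.sub_add_cancel hij.le]
    exact h.symm
  have h2 : P ∣ X ^ (Nat.card F) ^ (j - i) - X := by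
    apply dvd_of_aeval hP hi hα
    rw [Nat.card_eq_fintype_card]
    simp [h1]
  have h3 := hi.natDegree_dvd_of_dvd_X_pow_card_pow_sub_X h2
  have := Nat.le_of_dvd (by omega) h3
  omega

lemma root_pow_natDegree : α ^ (Fintype.card F ^ P.natDegree) = α := by
  have h := hi.natDegree_dvd_iff_dvd_X_pow_card_pow_sub_X.mp (dvd_refl P.natDegree)
  obtain ⟨G, hG⟩ := h
  have h2 : aeval α (X ^ (Nat.card F) ^ P.natDegree - X : F[X]) = 0 := by
    rw [hG, map_mul, hα, zero_mul]
  rw [Nat.card_eq_fintype_card] at h2
  simp only [map_sub, map_pow, aeval_X] at h2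
  exact sub_eq_zero.mp h2

lemma root_fin_inj : Function.Injective (fun i : Fin P.natDegree => α ^ (Fintype.card F ^ (i : ℕ))) := by
  intro i j h
  rcases lt_trichotomy (i : ℕ) (j : ℕ) with hlt | heq | hgt
  · exact absurd h (root_pow_inj hP hi hα hlt j.2)
  · exact Fin.ext heq
  · exact absurd h.symm (root_pow_inj hP hi hα hgt i.2)

lemma aroots_irr : P.aroots (AlgebraicClosure F)
    = (Finset.univ : Finset (Fin P.natDegree)).val.map
      (fun i : Fin P.natDegree => α ^ (Fintype.card F ^ (i : ℕ))) := by
  symm
  apply Multiset.eq_of_le_of_card_le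
  · rw [Multiset.le_iff_subset]
    · intro x hx
      rw [Multiset.mem_map] at hx
      obtain ⟨i, _, rfl⟩ := hx
      rw [mem_aroots]
      refine ⟨hP.ne_zero, ?_⟩
      rw [aeval_pow_card, hα, zero_pow]
      exact pow_ne_zero _ Fintype.card_ne_zero
    · exact Multiset.Nodup.map (root_fin_inj hP hi hα) Finset.univ.nodup
  · rw [card_aroots]
    simp

lemma RR_irr (B : F[X]) : RR P B = ∏ i : Fin P.natDegree, (aeval α B) ^ (Fintype.card F ^ (i : ℕ)) := by
  unfold RR
  rw [aroots_irr hP hi hα, Multiset.map_map]
  apply Finset.prod_congr rfl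
  intro i _
  simp only [Function.comp]
  rw [aeval_pow_card]

/-- `psi (RR P B)` is a single power of the value at a root. -/
lemma psi_RR_irr (hF : ringChar F ≠ 2) (B : F[X]) :
    psi (F := F) (RR P B) = (aeval α B) ^ (Fintype.card F ^ P.natDegree / 2) := by
  rw [RR_irr hP hi hα, Finset.prod_pow_eq_pow_sum]
  unfold psi
  rw [← pow_mul]
  congr 1
  have hodd : Fintype.card F % 2 = 1 := FiniteField.odd_card_of_char_ne_two hF
  have h1 : ∑ i : Fin P.natDegree, Fintype.card F ^ (i : ℕ) = ∑ i ∈ Finset.range P.natDegree, Fintype.card F ^ i :=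
    Fin.sum_univ_eq_sum_range (fun i => Fintype.card F ^ i) _
  rw [h1]
  have h2 := Nat.geomSum_eq (m := Fintype.card F) Fintype.one_lt_card P.natDegree
  obtain ⟨e, he⟩ : ∃ e, Fintype.card F = 2 * e + 1 := ⟨Fintype.card F / 2, by omega⟩
  have hgeo : (∑ i ∈ Finset.range P.natDegree, Fintype.card F ^ i) * (Fintype.card F - 1) + 1 = Fintype.card F ^ P.natDegree := by
    have := Nat.geomSum_eq (m := Fintype.card F) Fintype.one_lt_card P.natDegree
    have h3 := geom_sum_mul_of_one_le (x := Fintype.card F) (by omega) P.natDegree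
    have h4 : 1 ≤ Fintype.card F ^ P.natDegree := Nat.one_le_pow _ _ (by omega)
    rw [h3]
    omega
  have h5 : Fintype.card F - 1 = 2 * (Fintype.card F / 2) := by omega
  rw [h5] at hgeo
  have : (∑ i ∈ Finset.range P.natDegree, Fintype.card F ^ i) * (2 * (Fintype.card F / 2))
      = 2 * ((∑ i ∈ Finset.range P.natDegree, Fintype.card F ^ i) * (Fintype.card F / 2)) := by ring
  rw [this] at hgeo
  omega

end irr

section deriv
variable {P : F[X]} (hP : P.Monic) (hi : Irreducible P)
include hP hi

lemma exists_root_irr : ∃ α : AlgebraicClosure F, aeval α P = 0 :=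
  IsAlgClosed.exists_aeval_eq_zero _ P (ne_of_gt (degree_pos_of_irreducible hi))

omit hP hi in
lemma prod_neg_one (n : ℕ) :
    (∏ i : Fin n, ∏ _j ∈ Finset.Ioi i, (-1 : AlgebraicClosure F)) = (-1) ^ (n.choose 2) := by
  simp only [Finset.prod_const]
  rw [Finset.prod_pow_eq_pow_sum]
  congr 1
  simp only [Fin.card_Ioi]
  rw [Fin.sum_univ_eq_sum_range (fun i => n - 1 - i) n, Finset.sum_range_reflect (fun i => i) n,
    Finset.sum_range_id, Nat.choose_two_right]

lemma RR_deriv_irr : ∃ δ : AlgebraicClosure F, δ ≠ 0 ∧
    δ ^ Fintype.card F = (-1) ^ (P.natDegree - 1) * δ ∧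
    RR P (derivative P) = (-1) ^ (P.natDegree.choose 2) * δ ^ 2 := by
  classical
  obtain ⟨α, hα⟩ := exists_root_irr hP hi
  set v : Fin P.natDegree → AlgebraicClosure F := fun i => α ^ (Fintype.card F ^ (i : ℕ)) with hv
  have hinj : Function.Injective v := root_fin_inj hP hi hα
  have hroots : P.aroots (AlgebraicClosure F) = Finset.univ.val.map v := aroots_irr hP hi hα
  refine ⟨(Matrix.vandermonde v).det, ?_, ?_, ?_⟩
  · exact Matrix.det_vandermonde_ne_zero_iff.mpr hinj
  · have h1 : (Matrix.vandermonde v).det ^ Fintype.card F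
        = (Matrix.vandermonde (fun i => v i ^ Fintype.card F)).det := by
      have h2 : (Matrix.vandermonde v).det ^ Fintype.card F
          = (FiniteField.frobeniusAlgHom F (AlgebraicClosure F)).toRingHom
              (Matrix.vandermonde v).det := by
        have := congrFun (FiniteField.coe_frobeniusAlgHom F (AlgebraicClosure F))
          (Matrix.vandermonde v).det
        exact this.symm
      rw [h2, RingHom.map_det]
      congr 1
      ext i j
      simp only [RingHom.mapMatrix_apply, Matrix.map_apply, Matrix.vandermonde_apply, map_pow]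
      congr 1
    have hrot : ∀ i, v i ^ Fintype.card F = v (finRotate _ i) := by
      intro i
      simp only [hv]
      obtain ⟨n, hn⟩ : ∃ n, P.natDegree = n + 1 :=
        ⟨P.natDegree - 1, by have := hi.natDegree_pos; omega⟩
      have key : ∀ (m : ℕ) (hm : m = n + 1) (i : Fin m), (α ^ Fintype.card F ^ (n+1) = α) →
          (α ^ Fintype.card F ^ (i : ℕ)) ^ Fintype.card F = α ^ Fintype.card F ^ ((finRotate m i : Fin m) : ℕ) := by
        intro m hm i hα'
        subst hm
        by_cases hl : i = Fin.last n
        · rw [hl, finRotate_last]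
          simp only [Fin.val_last, Fin.val_zero, pow_zero, pow_one]
          rw [← pow_mul, ← pow_succ]
          exact hα'
        · rw [coe_finRotate_of_ne_last hl]
          rw [← pow_mul, ← pow_succ]
      apply key _ hn i
      rw [← hn]
      exact root_pow_natDegree hP hi hα
    rw [h1]
    have h3 : (Matrix.vandermonde (fun i => v i ^ Fintype.card F))
        = (Matrix.vandermonde v).submatrix (finRotate _) id := by
      ext i j
      simp only [Matrix.vandermonde_apply, Matrix.submatrix_apply, id]
      rw [hrot]
    rw [h3, Matrix.det_permute, sign_finRotate]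
    simp
  · unfold RR
    rw [hroots, Multiset.map_map]
    have h4 : ∀ i, aeval (v i) (derivative P) = ∏ j ∈ ({i}ᶜ : Finset _), (v i - v j) := by
      intro i
      have hsp := IsAlgClosed.splits (P.map (algebraMap F (AlgebraicClosure F)))
      have hr : (P.map (algebraMap F (AlgebraicClosure F))).roots = Finset.univ.val.map v := hroots
      have h5 := hsp.eval_root_derivative (hP.map _) (x := v i) (by
        rw [hr]
        exact Multiset.mem_map_of_mem _ (Finset.mem_univ i))
      rw [derivative_map, eval_map_algebraMap] at h5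
      rw [h5, hr, ← Multiset.map_erase _ hinj, Multiset.map_map]
      have h6 : (Finset.univ : Finset (Fin P.natDegree)).val.erase i = ({i}ᶜ : Finset _).val := by
        rw [← Finset.erase_val, Finset.compl_eq_univ_sdiff, Finset.sdiff_singleton_eq_erase]
      rw [h6]
      rfl
    have h7 : (Multiset.map ((fun α => (aeval α) (derivative P)) ∘ v)
        (Finset.univ : Finset (Fin P.natDegree)).val).prod
        = ∏ i, ∏ j ∈ ({i}ᶜ : Finset (Fin P.natDegree)), (v i - v j) := by
      show ∏ i, ((fun α => (aeval α) (derivative P)) ∘ v) i = _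
      apply Finset.prod_congr rfl
      intro i _
      simp only [Function.comp]
      exact h4 i
    rw [h7, ← Finset.prod_prod_Ioi_mul_eq_prod_prod_off_diag (fun j i => v i - v j)]
    have h8 : ∀ i j, (v i - v j) * (v j - v i) = (-1) * (v j - v i) ^ 2 := fun i j => by ring
    simp_rw [h8, Finset.prod_mul_distrib]
    rw [prod_neg_one, Matrix.det_vandermonde]
    congr 1
    simp_rw [Finset.prod_pow]

end deriv

end Pool.Agent.helper36.FF
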