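import Mathlib
import Pool.Agent.helper36.FF.B

set_option autoImplicit false

/-!
Part C: the Liouville function of a polynomial, the Pellet formula, and the comparison lemma.
-/

namespace Pool.Agent.helper36.FF

open Polynomial

section lam
variable {F : Type*} [Field F]

/-- The Liouville function of a polynomial: `(-1)` to the number of irreducible factors counted
with multiplicity. -/
noncomputable def lam (f : F[X]) : ℤ :=
  (-1) ^ (Multiset.card (UniqueFactorizationMonoid.factors f))

lemma lam_one : lam (1 : F[X]) = 1 := by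
  unfold lam
  rw [UniqueFactorizationMonoid.factors_one]
  simp

lemma lam_mul {f g : F[X]} (hf : f ≠ 0) (hg : g ≠ 0) : lam (f * g) = lam f * lam g := by
  unfold lam
  rw [← pow_add, ← Multiset.card_add]
  congr 1
  exact Multiset.card_eq_card_of_rel (UniqueFactorizationMonoid.factors_mul hf hg)

lemma lam_irr {f : F[X]} (hf : Irreducible f) : lam f = -1 := by
  unfold lam
  rw [UniqueFactorizationMonoid.card_factors_of_irreducible hf]
  simp

lemma lam_sq (f : F[X]) : lam f * lam f = 1 := by
  unfold lam
  rw [← pow_add, ← two_mul, pow_mul]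
  simp

lemma lam_eq (f : F[X]) : lam f = 1 ∨ lam f = -1 := by
  unfold lam
  exact neg_one_pow_eq_or ℤ _

end lam

section pellet
variable {F : Type*} [Field F] [Fintype F]

lemma choose_two_add (a b : ℕ) : (a + b).choose 2 = a.choose 2 + b.choose 2 + a * b := by
  induction b with
  | zero => simp
  | succ b ih =>
    have h1 : (a + (b + 1)).choose 2 = (a + b).choose 1 + (a + b).choose 2 :=
      Nat.choose_succ_succ (a + b) 1
    have h2 : (b + 1).choose 2 = b.choose 1 + b.choose 2 := Nat.choose_succ_succ b 1
    rw [h1, ih, h2, Nat.choose_one_right, Nat.choose_one_right]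
    ring

/-- right side of the Pellet formula -/
noncomputable def pel (H : F[X]) : AlgebraicClosure F :=
  (-1) ^ H.natDegree * psi (F := F) (-1) ^ (H.natDegree.choose 2)
    * psi (F := F) (RR H (derivative H))

lemma psi_neg_one_sq : psi (F := F) (-1) * psi (F := F) (-1) = 1 := by
  rw [← psi_mul]
  simp [psi_one]

lemma psi_neg_one_pow_even (n : ℕ) : psi (F := F) (-1) ^ (n + n) = 1 := by
  rw [pow_add, ← mul_pow, psi_neg_one_sq, one_pow]

lemma psi_neg_one_pow (n : ℕ) : psi (F := F) ((-1) ^ n) = psi (F := F) (-1) ^ n := psi_pow _ _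

lemma pel_mul (hF : ringChar F ≠ 2) {A B : F[X]} (hA : A.Monic) (hB : B.Monic)
    (hAB : IsCoprime A B) : pel (A * B) = pel A * pel B := by
  unfold pel
  rw [hA.natDegree_mul hB, choose_two_add, derivative_mul, RR_mul_left hA.ne_zero hB.ne_zero]
  have e1 : RR A (derivative A * B + A * derivative B) = RR A (derivative A) * RR A B := by
    rw [← RR_mul_right]
    apply RR_congr
    rw [add_sub_cancel_left]
    exact dvd_mul_right _ _
  have e2 : RR B (derivative A * B + A * derivative B) = RR B A * RR B (derivative B) := by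
    rw [← RR_mul_right]
    apply RR_congr
    rw [add_sub_cancel_right]
    exact dvd_mul_left _ _
  rw [e1, e2, RR_symm hA hB]
  simp only [psi_mul, psi_neg_one_pow]
  have h1 : psi (F := F) (RR B A) ^ 2 = 1 := psi_RR_sq hF hB hAB.symm
  have h2 : psi (F := F) (-1) ^ (A.natDegree * B.natDegree)
      * psi (F := F) (-1) ^ (A.natDegree * B.natDegree) = 1 := by
    rw [← pow_add]; exact psi_neg_one_pow_even _
  rw [pow_add, pow_add, pow_add]
  set u := psi (F := F) (RR B A)
  set w := psi (F := F) (-1) ^ (A.natDegree * B.natDegree)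
  set a := psi (F := F) (-1) ^ A.natDegree.choose 2
  set b := psi (F := F) (-1) ^ B.natDegree.choose 2
  set r := psi (F := F) (RR A (derivative A))
  set s := psi (F := F) (RR B (derivative B))
  linear_combination ((-1) ^ A.natDegree * (-1) ^ B.natDegree * a * b * r * s * w * w) * h1
    + ((-1) ^ A.natDegree * (-1) ^ B.natDegree * a * b * r * s) * h2

lemma pel_irr (hF : ringChar F ≠ 2) {P : F[X]} (hP : P.Monic) (hi : Irreducible P) :
    pel P = -1 := by
  obtain ⟨δ, hδ, h1, h2⟩ := RR_deriv_irr hP hi
  unfold pel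
  rw [h2, psi_mul, psi_neg_one_pow, psi_pow]
  have h3 : psi (F := F) δ ^ 2 = (-1) ^ (P.natDegree - 1) := by
    have hodd : Fintype.card F % 2 = 1 := FiniteField.odd_card_of_char_ne_two hF
    have : Fintype.card F / 2 * 2 + 1 = Fintype.card F := by omega
    unfold psi
    rw [← pow_mul]
    apply mul_right_cancel₀ hδ
    rw [← h1, ← pow_succ, this]
  rw [h3]
  have h4 : psi (F := F) (-1) ^ P.natDegree.choose 2 * psi (F := F) (-1) ^ P.natDegree.choose 2 = 1 := by
    rw [← pow_add]; exact psi_neg_one_pow_even _
  have h5 : (-1 : AlgebraicClosure F) ^ P.natDegree * (-1) ^ (P.natDegree - 1) = -1 := by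
    rw [← pow_add]
    have := hi.natDegree_pos
    have h6 : P.natDegree + (P.natDegree - 1) = 2 * (P.natDegree - 1) + 1 := by omega
    rw [h6, pow_succ, pow_mul]
    simp
  linear_combination ((-1) ^ P.natDegree * (-1) ^ (P.natDegree - 1)) * h4 + h5

theorem pellet (hF : ringChar F ≠ 2) (H : F[X]) (hH : H.Monic) (hs : Squarefree H) :
    ((lam H : ℤ) : AlgebraicClosure F) = pel H := by
  induction hn : H.natDegree using Nat.strong_induction_on generalizing H with
  | _ n ih =>
    by_cases hu : IsUnit H
    · have : H = 1 := hH.eq_one_of_isUnit hu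
      subst this
      rw [lam_one]
      unfold pel
      simp only [natDegree_one, derivative_one]
      unfold RR
      simp [psi_one]
    · obtain ⟨P, hP, hi, B, hB⟩ := exists_monic_irreducible_factor H hu
      have hBm : B.Monic := hP.of_mul_monic_left (by rw [← hB]; exact hH)
      subst hB
      have hcop : IsCoprime P B := by
        rw [hi.coprime_iff_not_dvd]
        rintro ⟨C', rfl⟩
        have := hs P ⟨C', by ring⟩
        exact hi.not_isUnit this
      have hsB : Squarefree B := hs.squarefree_of_dvd (dvd_mul_left _ _)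
      have hdeg : B.natDegree < n := by
        rw [hP.natDegree_mul hBm] at hn
        have := hi.natDegree_pos
        omega
      rw [lam_mul hP.ne_zero hBm.ne_zero, pel_mul hF hP hBm hcop, pel_irr hF hP hi, lam_irr hi]
      push_cast
      rw [ih _ hdeg B hBm hsB rfl]

/-- The operator `X f' - j f`. -/
noncomputable def th (j : ℕ) (f : F[X]) : F[X] := X * derivative f - (j : F[X]) * f

omit [Fintype F] in
lemma th_add (j : ℕ) (f g : F[X]) : th j (f + g) = th j f + th j g := by
  unfold th
  rw [derivative_add]
  ring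

omit [Fintype F] in
lemma th_sub (j : ℕ) (f g : F[X]) : th j (f - g) = th j f - th j g := by
  unfold th
  rw [derivative_sub]
  ring

/-- The comparison lemma. -/
theorem compare (hF : ringChar F ≠ 2) (j : ℕ) {P E s H₁ H₂ : F[X]} (hP : P.Monic)
    (hs : s.Monic) (h1 : H₁.Monic) (h2 : H₂.Monic) (hdeg : H₁.natDegree = H₂.natDegree)
    (hE : E ≠ 0) (hd1 : th j (s * H₁) = P * E) (hd2 : th j (s * H₂) = P * E)
    (hcs : s ∣ H₁ - H₂) (hcE : E ∣ H₁ - H₂) (hcX : X ∣ H₁ - H₂)
    (c1 : IsCoprime H₁ s) (c1' : IsCoprime H₁ E) (c1P : IsCoprime H₁ P) (c1X : IsCoprime H₁ X)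
    (c2 : IsCoprime H₂ s) (c2' : IsCoprime H₂ E) (c2P : IsCoprime H₂ P) (c2X : IsCoprime H₂ X) :
    ((lam (s * H₁) : ℤ) : AlgebraicClosure F) * psi (F := F) (RR P (s * H₁))
      = ((lam (s * H₂) : ℤ) : AlgebraicClosure F) * psi (F := F) (RR P (s * H₂)) := by
  -- formula for one polynomial
  have key : ∀ H : F[X], H.Monic → th j (s * H) = P * E → IsCoprime H s → IsCoprime H E →
      IsCoprime H P → IsCoprime H X →
      ((lam H : ℤ) : AlgebraicClosure F) * psi (F := F) (RR P H) =
        (-1) ^ H.natDegree * psi (F := F) (-1) ^ (H.natDegree.choose 2)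
        * psi (F := F) (-1) ^ (H.natDegree * P.natDegree)
        * psi (F := F) (RR H s) * psi (F := F) (RR H E) * psi (F := F) (RR H X) := by
    intro H hH hd hcs hcE hcP hcX
    have hth : th j (s * H) = X * s * derivative H + H * (X * derivative s - (j : F[X]) * s) := by
      unfold th
      rw [derivative_mul]
      ring
    have hsq : Squarefree H := by
      have hsep : H.Separable := by
        rw [separable_def]
        have h3 : IsCoprime H (P * E) := hcP.mul_right hcE
        rw [← hd, hth] at h3
        have h4 : IsCoprime H (X * s * derivative H) := by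
          have := h3.add_mul_left_right (-(X * derivative s - (j : F[X]) * s))
          have e : X * s * derivative H + H * (X * derivative s - (j : F[X]) * s)
            + H * -(X * derivative s - (j : F[X]) * s) = X * s * derivative H := by
            ring
          rwa [e] at this
        exact h4.of_mul_right_right
      exact hsep.squarefree
    have e1 : RR H (P * E) = RR H X * RR H s * RR H (derivative H) := by
      rw [← hd, hth, ← RR_mul_right, ← RR_mul_right]
      apply RR_congr
      rw [add_sub_cancel_left]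
      exact dvd_mul_right _ _
    rw [RR_mul_right, RR_symm hH hP] at e1
    have e2 := congrArg (psi (F := F)) e1
    simp only [psi_mul, psi_neg_one_pow] at e2
    have h5 : psi (F := F) (RR H s) ^ 2 = 1 := psi_RR_sq hF hH hcs
    have h6 : psi (F := F) (RR P H) ^ 2 = 1 := psi_RR_sq hF hP hcP.symm
    have h7 : psi (F := F) (RR H X) ^ 2 = 1 := psi_RR_sq hF hH hcX
    rw [pellet hF H hH hsq]
    unfold pel
    set A := psi (F := F) (RR H s)
    set B := psi (F := F) (RR P H)
    set D := psi (F := F) (RR H (derivative H))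
    set G := psi (F := F) (RR H E)
    set c := psi (F := F) (-1) ^ (H.natDegree * P.natDegree)
    set Y := psi (F := F) (RR H X)
    set m0 := (-1 : AlgebraicClosure F) ^ H.natDegree * psi (F := F) (-1) ^ (H.natDegree.choose 2)
    -- e2 : c * B * G = Y * A * D
    have h8 : D = Y * A * c * B * G := by
      linear_combination (-(D * A ^ 2)) * h7 - D * h5 - (Y * A) * e2
    rw [h8]
    linear_combination (m0 * Y * A * c * G) * h6
  have k1 := key H₁ h1 hd1 c1 c1' c1P c1X
  have k2 := key H₂ h2 hd2 c2 c2' c2P c2X
  have rs : RR H₁ s = RR H₂ s := by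
    rw [RR_symm h1 hs, RR_symm h2 hs, hdeg, RR_congr hcs]
  have rX : RR H₁ X = RR H₂ X := by
    rw [RR_symm h1 monic_X, RR_symm h2 monic_X, hdeg, RR_congr hcX]
  have rE : RR H₁ E = RR H₂ E := by
    -- make E monic
    obtain ⟨c, E', hE', hEE⟩ : ∃ (c : F) (E' : F[X]), E'.Monic ∧ E = C c * E' := by
      refine ⟨E.leadingCoeff, C (E.leadingCoeff⁻¹) * E, ?_, ?_⟩
      · rw [mul_comm]
        exact monic_mul_leadingCoeff_inv hE
      · rw [← mul_assoc, ← C_mul, mul_inv_cancel₀ (leadingCoeff_ne_zero.mpr hE), C_1, one_mul]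
    have hdvd : E' ∣ H₁ - H₂ := by
      obtain ⟨G, hG⟩ := hcE
      exact ⟨C c * G, by rw [hG, hEE]; ring⟩
    rw [hEE, RR_mul_right, RR_mul_right, RR_C, RR_C, hdeg, RR_symm h1 hE', RR_symm h2 hE', hdeg,
      RR_congr hdvd]
  rw [lam_mul hs.ne_zero h1.ne_zero, lam_mul hs.ne_zero h2.ne_zero, RR_mul_right, RR_mul_right,
    psi_mul, psi_mul]
  push_cast
  rw [rs, rE, rX, hdeg] at k1
  linear_combination ((lam s : ℤ) : AlgebraicClosure F) * psi (F := F) (RR P s) * (k1 - k2)

end pellet

end Pool.Agent.helper36.FF
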