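import Mathlib
import Pool.Agent.helper82.Weil.M

set_option autoImplicit false

/-!
Part D: in a large finite field the quadratic characters of finitely many shifts can be
prescribed (from the Weil bound).
-/

namespace Pool.Agent.helper36.FF

open Finset

section weil
variable {k : Type*} [Field k] [Fintype k] [DecidableEq k]

theorem exists_prescribed (hk : ringChar k ≠ 2) (K : Finset k) (τ : k → ℤ)
    (hτ : ∀ a ∈ K, τ a = 1 ∨ τ a = -1)
    (hbig : (2 * (K.card * 2 ^ K.card)) ^ 2 < Fintype.card k) :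
    ∃ x : k, ∀ a ∈ K, quadraticChar k (x + a) = τ a := by
  classical
  by_contra hcon
  push Not at hcon
  set χ : MulChar k ℂ := (quadraticChar k).ringHomComp (Int.castRingHom ℂ) with hχ
  have hχv : ∀ x : k, χ x = ((quadraticChar k x : ℤ) : ℂ) := fun x => rfl
  have hχ1 : χ ≠ 1 := by
    intro h
    apply quadraticChar_ne_one hk
    ext u
    have h1 : χ (u : k) = 1 := by rw [h]; simp
    rw [hχv] at h1
    have h2 : quadraticChar k (u : k) = 1 := by exact_mod_cast h1
    rw [h2]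
    simp
  set S : ℂ := ∑ x : k, ∏ a ∈ K, (1 + ((τ a : ℤ) : ℂ) * χ (x + a)) with hS
  -- upper bound
  have hfac : ∀ x : k, ∀ a ∈ K, ‖(1 + ((τ a : ℤ) : ℂ) * χ (x + a))‖ ≤ 2 := by
    intro x a ha
    have h1 : ‖((τ a : ℤ) : ℂ)‖ ≤ 1 := by
      rcases hτ a ha with h | h <;> rw [h] <;> simp
    calc ‖(1 + ((τ a : ℤ) : ℂ) * χ (x + a))‖ ≤ ‖(1 : ℂ)‖ + ‖((τ a : ℤ) : ℂ) * χ (x + a)‖ :=
          norm_add_le _ _
      _ ≤ 1 + 1 * 1 := by
          rw [norm_mul, norm_one]
          gcongr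
          exact Pool.Agent.helper82.Weil.norm_chi_le χ _
      _ = 2 := by norm_num
  have hzero : ∀ x : k, x ∉ K.image (fun a => -a) →
      ∏ a ∈ K, (1 + ((τ a : ℤ) : ℂ) * χ (x + a)) = 0 := by
    intro x hx
    obtain ⟨a, ha, hne⟩ := hcon x
    apply Finset.prod_eq_zero ha
    have hxa : x + a ≠ 0 := by
      intro h0
      apply hx
      rw [Finset.mem_image]
      exact ⟨a, ha, (eq_neg_of_add_eq_zero_left h0).symm⟩
    have h2 : quadraticChar k (x + a) = 1 ∨ quadraticChar k (x + a) = -1 :=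
      quadraticChar_dichotomy hxa
    rw [hχv]
    have h3 : τ a * quadraticChar k (x + a) = -1 := by
      rcases hτ a ha with h | h <;> rcases h2 with h' | h'
      · exact absurd (h'.trans h.symm) hne
      · rw [h, h']; norm_num
      · rw [h, h']; norm_num
      · exact absurd (h'.trans h.symm) hne
    rw [← Int.cast_mul, h3]
    simp
  have hup : ‖S‖ ≤ K.card * 2 ^ K.card := by
    have h1 : S = ∑ x ∈ K.image (fun a => -a), ∏ a ∈ K, (1 + ((τ a : ℤ) : ℂ) * χ (x + a)) := by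
      rw [hS]
      symm
      apply Finset.sum_subset (Finset.subset_univ _)
      intro x _ hx
      exact hzero x hx
    rw [h1]
    calc ‖∑ x ∈ K.image (fun a => -a), ∏ a ∈ K, (1 + ((τ a : ℤ) : ℂ) * χ (x + a))‖
        ≤ ∑ x ∈ K.image (fun a => -a), ‖∏ a ∈ K, (1 + ((τ a : ℤ) : ℂ) * χ (x + a))‖ :=
          norm_sum_le _ _
      _ ≤ ∑ x ∈ K.image (fun a => -a), (2 : ℝ) ^ K.card := by
          apply Finset.sum_le_sum
          intro x _
          rw [norm_prod]
          calc ∏ a ∈ K, ‖(1 + ((τ a : ℤ) : ℂ) * χ (x + a))‖ ≤ ∏ _a ∈ K, (2 : ℝ) :=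
                Finset.prod_le_prod (fun _ _ => norm_nonneg _) (fun a ha => hfac x a ha)
            _ = 2 ^ K.card := by rw [Finset.prod_const]
      _ = ((K.image (fun a => -a)).card : ℝ) * 2 ^ K.card := by
          rw [Finset.sum_const, nsmul_eq_mul]
      _ ≤ K.card * 2 ^ K.card := by
          apply mul_le_mul_of_nonneg_right _ (by positivity)
          exact_mod_cast Finset.card_image_le
  -- expansion
  have hexp : S = ∑ T ∈ K.powerset, (∏ a ∈ T, ((τ a : ℤ) : ℂ)) * ∑ x : k, χ (∏ a ∈ T, (a + x)) := by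
    rw [hS]
    simp_rw [Finset.prod_one_add]
    rw [Finset.sum_comm]
    apply Finset.sum_congr rfl
    intro T _
    rw [Finset.mul_sum]
    apply Finset.sum_congr rfl
    intro x _
    rw [Finset.prod_mul_distrib, map_prod]
    congr 1
    apply Finset.prod_congr rfl
    intro a _
    rw [add_comm]
  have hT : ∀ T ∈ K.powerset.erase ∅,
      ‖(∏ a ∈ T, ((τ a : ℤ) : ℂ)) * ∑ x : k, χ (∏ a ∈ T, (a + x))‖
        ≤ K.card * Real.sqrt (Fintype.card k) := by
    intro T hT
    rw [Finset.mem_erase, Finset.mem_powerset] at hT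
    obtain ⟨a₀, ha₀⟩ := Finset.nonempty_iff_ne_empty.mpr hT.1
    have h1 : ‖(∏ a ∈ T, ((τ a : ℤ) : ℂ))‖ ≤ 1 := by
      rw [norm_prod]
      apply Finset.prod_le_one (fun _ _ => norm_nonneg _)
      intro a ha
      rcases hτ a (hT.2 ha) with h | h <;> rw [h] <;> simp
    have h2 := Pool.Agent.helper82.Weil.weil_shift χ hχ1 (ι := T) (fun a => (a : k)) (fun _ => 1)
      ⟨a₀, ha₀⟩ rfl (by
        intro i hi h
        exact hi (Subtype.ext h))
    have h3 : ∀ u : k, ∏ i : T, ((i : k) + u) ^ 1 = ∏ a ∈ T, (a + u) := by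
      intro u
      simp only [pow_one]
      exact Finset.prod_coe_sort T (fun a => a + u)
    simp_rw [h3] at h2
    rw [Fintype.card_coe] at h2
    rw [norm_mul]
    calc ‖(∏ a ∈ T, ((τ a : ℤ) : ℂ))‖ * ‖∑ x : k, χ (∏ a ∈ T, (a + x))‖
        ≤ 1 * (((T.card - 1 : ℕ) : ℝ) * Real.sqrt (Fintype.card k)) := by
          gcongr
      _ ≤ K.card * Real.sqrt (Fintype.card k) := by
          rw [one_mul]
          gcongr
          exact (Nat.sub_le _ _).trans (Finset.card_le_card hT.2)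
  have hempty : (∅ : Finset k) ∈ K.powerset := Finset.empty_mem_powerset K
  have hSQ : ‖S - (Fintype.card k : ℂ)‖ ≤ 2 ^ K.card * (K.card * Real.sqrt (Fintype.card k)) := by
    rw [hexp, ← Finset.add_sum_erase _ _ hempty]
    have h0 : (∏ a ∈ (∅ : Finset k), ((τ a : ℤ) : ℂ)) * ∑ x : k, χ (∏ a ∈ (∅ : Finset k), (a + x))
        = (Fintype.card k : ℂ) := by
      simp
    rw [h0, add_sub_cancel_left]
    calc ‖∑ T ∈ K.powerset.erase ∅, (∏ a ∈ T, ((τ a : ℤ) : ℂ)) * ∑ x : k, χ (∏ a ∈ T, (a + x))‖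
        ≤ ∑ T ∈ K.powerset.erase ∅,
            ‖(∏ a ∈ T, ((τ a : ℤ) : ℂ)) * ∑ x : k, χ (∏ a ∈ T, (a + x))‖ := norm_sum_le _ _
      _ ≤ ∑ _T ∈ K.powerset.erase ∅, (K.card * Real.sqrt (Fintype.card k)) :=
          Finset.sum_le_sum hT
      _ = ((K.powerset.erase ∅).card : ℝ) * (K.card * Real.sqrt (Fintype.card k)) := by
          rw [Finset.sum_const, nsmul_eq_mul]
      _ ≤ 2 ^ K.card * (K.card * Real.sqrt (Fintype.card k)) := by
          gcongr
          have : (K.powerset.erase ∅).card ≤ 2 ^ K.card := by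
            rw [← Finset.card_powerset]
            exact Finset.card_le_card (Finset.erase_subset _ _)
          exact_mod_cast this
  set Q : ℝ := (Fintype.card k : ℝ) with hQ
  set M : ℝ := (K.card : ℝ) * 2 ^ K.card with hM
  have hM0 : 0 ≤ M := by positivity
  have hQ1 : 1 ≤ Real.sqrt Q := by
    rw [Real.one_le_sqrt]
    have h0 : 1 ≤ Fintype.card k := Fintype.card_pos
    rw [hQ]
    exact_mod_cast h0
  have h1 : Q ≤ ‖S‖ + ‖S - (Fintype.card k : ℂ)‖ := by
    have h2 : ‖(Fintype.card k : ℂ)‖ ≤ ‖S‖ + ‖S - (Fintype.card k : ℂ)‖ := by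
      have := norm_sub_le S (S - (Fintype.card k : ℂ))
      rwa [sub_sub_cancel] at this
    have h3 : ‖(Fintype.card k : ℂ)‖ = Q := by
      rw [Complex.norm_natCast]
    rwa [h3] at h2
  have h2 : Q ≤ 2 * M * Real.sqrt Q := by
    have : 2 ^ K.card * ((K.card : ℝ) * Real.sqrt Q) = M * Real.sqrt Q := by rw [hM]; ring
    rw [this] at hSQ
    nlinarith
  have h3 : Real.sqrt Q ≤ 2 * M := by
    have h4 : Real.sqrt Q * Real.sqrt Q = Q := Real.mul_self_sqrt (by positivity)
    have h5 : 0 < Real.sqrt Q := by linarith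
    nlinarith
  have h6 : Q ≤ (2 * M) ^ 2 := by
    have h4 : Real.sqrt Q * Real.sqrt Q = Q := Real.mul_self_sqrt (by positivity)
    nlinarith
  have h7 : ((2 * (K.card * 2 ^ K.card)) ^ 2 : ℝ) < Q := by
    have : (((2 * (K.card * 2 ^ K.card)) ^ 2 : ℕ) : ℝ) < (Fintype.card k : ℝ) := by
      exact_mod_cast hbig
    push_cast at this
    exact this
  linarith

end weil

end Pool.Agent.helper36.FF
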