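import Mathlib
import Pool.Agent.helper36.FF.C
import Pool.Agent.helper36.FF.D

set_option autoImplicit false

/-!
Part E: the link with the quadratic character of the residue field.
-/

namespace Pool.Agent.helper36.FF

open Polynomial

variable {F : Type*} [Field F] [Fintype F]

theorem exists_residue (hF : ringChar F ≠ 2) {P : F[X]} (hP : P.Monic) (hi : Irreducible P)
    (K : Finset F[X]) (hK : ∀ k ∈ K, k.natDegree < P.natDegree) (τ : F[X] → ℤ)
    (hτ : ∀ k ∈ K, τ k = 1 ∨ τ k = -1)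
    (hbig : (2 * (K.card * 2 ^ K.card)) ^ 2 < Fintype.card F ^ P.natDegree) :
    ∃ x : F[X], ∀ k ∈ K, psi (F := F) (RR P (x + k)) = ((τ k : ℤ) : AlgebraicClosure F) := by
  classical
  have : Fact (Irreducible P) := ⟨hi⟩
  have hfin : Module.Finite F (AdjoinRoot P) := (AdjoinRoot.powerBasis hi.ne_zero).finite
  have : Finite (AdjoinRoot P) := Module.finite_of_finite F
  have : Fintype (AdjoinRoot P) := Fintype.ofFinite _
  have hcard : Fintype.card (AdjoinRoot P) = Fintype.card F ^ P.natDegree := by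
    rw [Module.card_eq_pow_finrank (K := F) (V := AdjoinRoot P)]
    congr 1
    rw [(AdjoinRoot.powerBasis hi.ne_zero).finrank, AdjoinRoot.powerBasis_dim]
  have hchar : ringChar (AdjoinRoot P) ≠ 2 := by
    rw [← Algebra.ringChar_eq F (AdjoinRoot P)]
    exact hF
  -- injectivity of the residue map on K
  have hinj : Set.InjOn (AdjoinRoot.mk P) (K : Set F[X]) := by
    intro a ha b hb hab
    rw [AdjoinRoot.mk_eq_mk] at hab
    by_contra hne
    have h1 := Polynomial.natDegree_le_of_dvd hab (sub_ne_zero.mpr hne)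
    have h2 := natDegree_sub_le a b
    have h3 := hK a ha
    have h4 := hK b hb
    have h5 : max a.natDegree b.natDegree < P.natDegree := max_lt h3 h4
    omega
  set τ' : AdjoinRoot P → ℤ := fun y => τ (Function.invFunOn (AdjoinRoot.mk P) (K : Set F[X]) y)
    with hτ'
  have hτ1 : ∀ k ∈ K, τ' (AdjoinRoot.mk P k) = τ k := by
    intro k hk
    simp only [hτ']
    rw [hinj.leftInvOn_invFunOn hk]
  obtain ⟨y, hy⟩ := exists_prescribed hchar (K.image (AdjoinRoot.mk P)) τ' (by
      intro a ha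
      rw [Finset.mem_image] at ha
      obtain ⟨k, hk, rfl⟩ := ha
      rw [hτ1 k hk]
      exact hτ k hk) (by
      rw [hcard]
      refine lt_of_le_of_lt ?_ hbig
      have hc : (K.image (AdjoinRoot.mk P)).card ≤ K.card := Finset.card_image_le
      gcongr
      norm_num)
  obtain ⟨x, rfl⟩ := AdjoinRoot.mk_surjective y
  refine ⟨x, fun k hk => ?_⟩
  have h1 := hy (AdjoinRoot.mk P k) (Finset.mem_image_of_mem _ hk)
  rw [hτ1 k hk, ← map_add] at h1
  obtain ⟨α, hα⟩ := exists_root_irr hP hi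
  rw [psi_RR_irr hP hi hα hF]
  set ι : AdjoinRoot P →+* AlgebraicClosure F := AdjoinRoot.lift (algebraMap F _) α hα with hι
  have h2 : ι (AdjoinRoot.mk P (x + k)) = aeval α (x + k) := by
    rw [hι, AdjoinRoot.lift_mk]
    rfl
  rw [← h2, ← map_pow, ← hcard, ← quadraticChar_eq_pow_of_char_ne_two' hchar, h1, map_intCast]

lemma not_dvd_of_psi {P B : F[X]} (hi : Irreducible P) (h : psi (F := F) (RR P B) ≠ 0)
    (hF : ringChar F ≠ 2) : ¬ P ∣ B := by
  intro hd
  apply h
  have h1 : RR P B = RR P (C 0) := RR_congr (by simpa using hd)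
  rw [h1, RR_C]
  unfold psi
  rw [map_zero, zero_pow (by have := hi.natDegree_pos; omega), zero_pow]
  have hodd : Fintype.card F % 2 = 1 := FiniteField.odd_card_of_char_ne_two hF
  have : 1 < Fintype.card F := Fintype.one_lt_card
  omega

/-- irreducible monic polynomials of every positive degree -/
lemma exists_irr (n : ℕ) (hn : n ≠ 0) : ∃ P : F[X], P.Monic ∧ Irreducible P ∧ P.natDegree = n := by
  classical
  obtain ⟨p, hp⟩ := CharP.exists F
  have : Fact (Nat.Prime p) := ⟨CharP.char_is_prime F p⟩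
  have : NeZero n := ⟨hn⟩
  have hfr := FiniteField.finrank_extension F p n
  obtain ⟨α, hα⟩ := Field.exists_primitive_element F (FiniteField.Extension F p n)
  have hint : IsIntegral F α := IsIntegral.of_finite F α
  refine ⟨minpoly F α, minpoly.monic hint, minpoly.irreducible hint, ?_⟩
  refine Eq.trans ?_ hfr
  rw [← IntermediateField.finrank_top', ← hα, IntermediateField.adjoin.finrank hint]

lemma exists_primes (Γ : Finset F[X]) (D : ℕ) : ∃ P : F[X] → F[X],
    (∀ γ ∈ Γ, (P γ).Monic ∧ Irreducible (P γ) ∧ D < (P γ).natDegree) ∧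
    (∀ γ ∈ Γ, ∀ γ' ∈ Γ, γ ≠ γ' → IsCoprime (P γ) (P γ')) := by
  classical
  choose P0 hP0 using fun n : ℕ => exists_irr (F := F) (D + 1 + n) (by omega)
  refine ⟨fun γ => if h : γ ∈ Γ then P0 (Γ.equivFin ⟨γ, h⟩ : ℕ) else 1, ?_, ?_⟩
  · intro γ hγ
    simp only [hγ, dif_pos]
    refine ⟨(hP0 _).1, (hP0 _).2.1, ?_⟩
    rw [(hP0 _).2.2]
    omega
  · intro γ hγ γ' hγ' hne
    simp only [hγ, hγ', dif_pos]
    have hne2 : ((Γ.equivFin ⟨γ, hγ⟩ : ℕ)) ≠ (Γ.equivFin ⟨γ', hγ'⟩ : ℕ) := by
      intro h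
      have h2 := Γ.equivFin.injective (Fin.ext h)
      exact hne (congrArg Subtype.val h2)
    rw [(hP0 _).2.1.coprime_iff_not_dvd]
    intro hd
    have hass : Associated (P0 (Γ.equivFin ⟨γ, hγ⟩ : ℕ)) (P0 (Γ.equivFin ⟨γ', hγ'⟩ : ℕ)) :=
      (hP0 _).2.1.associated_of_dvd (hP0 _).2.1 hd
    have heq := eq_of_monic_of_associated (hP0 _).1 (hP0 _).1 hass
    have h3 := congrArg natDegree heq
    rw [(hP0 _).2.2, (hP0 _).2.2] at h3
    omega

end Pool.Agent.helper36.FF
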