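import Mathlib
import Pool.Agent.helper36.FF.E

set_option autoImplicit false

/-!
Part G: elementary lemmas on polynomials (part of a polynomial supported on the primes of `E`,
`p`-th roots, Chinese remainder theorem).
-/

namespace Pool.Agent.helper36.FF

open Polynomial

section gen
variable {F : Type*} [Field F]

/-- the part of `A` supported on the primes dividing `E` -/
lemma exists_part (E : F[X]) (hE : E ≠ 0) (A : F[X]) (hA : A ≠ 0) :
    ∃ (s B : F[X]) (N : ℕ), s.Monic ∧ A = s * B ∧ s ∣ E ^ N ∧ IsCoprime B E := by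
  induction hn : A.natDegree using Nat.strong_induction_on generalizing A with
  | _ n ih =>
    by_cases hc : IsCoprime A E
    · exact ⟨1, A, 0, monic_one, by ring, one_dvd _, hc⟩
    · have h1 : ∃ z : F[X], Irreducible z ∧ z ∣ A ∧ z ∣ E := by
        by_contra hcon
        push Not at hcon
        exact hc (isCoprime_of_irreducible_dvd (fun h => hA h.1) hcon)
      obtain ⟨z, hz, hzA, hzE⟩ := h1
      -- monic version
      have hz0 : z ≠ 0 := hz.ne_zero
      obtain ⟨z', hz', hass⟩ : ∃ z' : F[X], z'.Monic ∧ Associated z z' := by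
        refine ⟨z * C z.leadingCoeff⁻¹, monic_mul_leadingCoeff_inv hz0, ?_⟩
        exact (associated_mul_unit_right z _ (isUnit_C.mpr
          (isUnit_iff_ne_zero.mpr (inv_ne_zero (leadingCoeff_ne_zero.mpr hz0)))))
      have hz'i : Irreducible z' := hass.irreducible hz
      obtain ⟨A', hA'⟩ := hass.dvd_iff_dvd_left.mp hzA
      obtain ⟨E', hE'⟩ := hass.dvd_iff_dvd_left.mp hzE
      have hA'0 : A' ≠ 0 := by rintro rfl; rw [mul_zero] at hA'; exact hA hA'
      have hdeg : A'.natDegree < n := by
        rw [hA', natDegree_mul hz'.ne_zero hA'0] at hn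
        have := hz'i.natDegree_pos
        omega
      obtain ⟨s, B, N, hs, hsB, hsN, hcop⟩ := ih _ hdeg A' hA'0 rfl
      refine ⟨z' * s, B, N + 1, hz'.mul hs, by rw [hA', hsB]; ring, ?_, hcop⟩
      rw [pow_succ, mul_comm (E ^ N) E]
      exact mul_dvd_mul ⟨E', hE'⟩ hsN

lemma crt_pair {A B : F[X]} (h : IsCoprime A B) (c d : F[X]) :
    ∃ x : F[X], A ∣ x - c ∧ B ∣ x - d := by
  obtain ⟨u, v, huv⟩ := h
  -- u * A + v * B = 1
  refine ⟨c * (v * B) + d * (u * A), ⟨u * (d - c), ?_⟩, ⟨v * (c - d), ?_⟩⟩
  · have : v * B = 1 - u * A := by linear_combination huv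
    rw [this]; ring
  · have : u * A = 1 - v * B := by linear_combination huv
    rw [this]; ring

lemma crt_finset {ι : Type*} [DecidableEq ι] (Γ : Finset ι) (m c : ι → F[X])
    (h : ∀ i ∈ Γ, ∀ j ∈ Γ, i ≠ j → IsCoprime (m i) (m j)) :
    ∃ x : F[X], ∀ i ∈ Γ, m i ∣ x - c i := by
  induction Γ using Finset.induction_on with
  | empty => exact ⟨0, by simp⟩
  | insert i Γ hi ih =>
    obtain ⟨x, hx⟩ := ih (fun a ha b hb hab =>
      h a (Finset.mem_insert_of_mem ha) b (Finset.mem_insert_of_mem hb) hab)
    have hcop : IsCoprime (m i) (∏ j ∈ Γ, m j) := by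
      apply IsCoprime.prod_right
      intro j hj
      apply h i (Finset.mem_insert_self _ _) j (Finset.mem_insert_of_mem hj)
      rintro rfl
      exact hi hj
    obtain ⟨y, hy1, hy2⟩ := crt_pair hcop (c i) x
    refine ⟨y, fun j hj => ?_⟩
    rw [Finset.mem_insert] at hj
    rcases hj with rfl | hj
    · exact hy1
    · have h1 : m j ∣ y - x := (Finset.dvd_prod_of_mem m hj).trans hy2
      have : y - c j = (y - x) + (x - c j) := by ring
      rw [this]
      exact dvd_add h1 (hx j hj)

/-- a representative of a residue class whose degree is large -/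
lemma exists_avoid (T x : F[X]) (hT : T ≠ 0) (D : ℕ) :
    ∃ y : F[X], T ∣ y - x ∧ D < y.natDegree := by
  refine ⟨x + T * X ^ (x.natDegree + D + 1), ⟨X ^ (x.natDegree + D + 1), by ring⟩, ?_⟩
  have h1 : (T * X ^ (x.natDegree + D + 1)).natDegree = T.natDegree + (x.natDegree + D + 1) := by
    rw [natDegree_mul hT (pow_ne_zero _ X_ne_zero), natDegree_X_pow]
  rw [natDegree_add_eq_right_of_natDegree_lt (by rw [h1]; omega), h1]
  omega

end gen

section fin
variable {F : Type*} [Field F] [Fintype F]

lemma exists_pth_root (p : ℕ) [Fact p.Prime] [CharP F p] (g : F[X]) (hg : derivative g = 0) :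
    ∃ k : F[X], g = k ^ p := by
  have hp : p ≠ 0 := (Fact.out : p.Prime).ne_zero
  have h1 := expand_contract p hg hp
  have h2 := polynomial_expand_eq (R := F) (p := p) (contract p g)
  exact ⟨_, h1.symm.trans h2⟩

lemma pth_inj (p : ℕ) [Fact p.Prime] [CharP F p] {a b : F[X]} (h : a ^ p = b ^ p) : a = b := by
  apply frobenius_inj F[X] p
  rw [frobenius_def, frobenius_def]
  exact h

lemma derivative_pth (p : ℕ) [CharP F p] (w : F[X]) : derivative (w ^ p) = 0 := by
  rw [derivative_pow]
  simp

lemma X_mul_derivative_X_pow_mul (j : ℕ) (f : F[X]) :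
    th j (X ^ j * f) = X ^ (j + 1) * derivative f := by
  unfold th
  rw [derivative_mul, derivative_X_pow]
  rcases j with _ | j
  · simp
  · simp only [Nat.add_sub_cancel]
    have : (C ((j + 1 : ℕ) : F) : F[X]) = ((j + 1 : ℕ) : F[X]) := C_eq_natCast _
    rw [this]
    ring

lemma th_pth (p : ℕ) [CharP F p] (j : ℕ) (w : F[X]) : th j (X ^ j * w ^ p) = 0 := by
  rw [X_mul_derivative_X_pow_mul, derivative_pth, mul_zero]

lemma th_kernel (p : ℕ) [Fact p.Prime] [CharP F p] (j : ℕ) (hj : j < p) (f : F[X])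
    (hf : th j f = 0) : ∃ k : F[X], f = X ^ j * k ^ p := by
  have hdvd : X ^ j ∣ f := by
    rw [X_pow_dvd_iff]
    intro i hi
    have h1 := congrArg (fun g : F[X] => g.coeff i) hf
    unfold th at h1
    simp only [coeff_sub, coeff_zero] at h1
    have h2 : (X * derivative f).coeff i = (i : F) * f.coeff i := by
      rcases i with _ | i
      · simp
      · rw [coeff_X_mul, coeff_derivative]
        push_cast
        ring
    have h3 : ((j : F[X]) * f).coeff i = (j : F) * f.coeff i := by
      rw [← C_eq_natCast, coeff_C_mul]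
    rw [h2, h3, ← sub_mul] at h1
    rcases mul_eq_zero.mp h1 with h | h
    · exfalso
      have h4 : (i : F) = (j : F) := sub_eq_zero.mp h
      rw [CharP.natCast_eq_natCast F p] at h4
      have h5 : i % p = j % p := h4
      rw [Nat.mod_eq_of_lt (hi.trans hj), Nat.mod_eq_of_lt hj] at h5
      omega
    · exact h
  obtain ⟨f1, rfl⟩ := hdvd
  rw [X_mul_derivative_X_pow_mul] at hf
  have h1 : derivative f1 = 0 := by
    rcases mul_eq_zero.mp hf with h | h
    · exact absurd h (pow_ne_zero _ X_ne_zero)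
    · exact h
  obtain ⟨k, hk⟩ := exists_pth_root p f1 h1
  exact ⟨k, by rw [hk]⟩

end fin

end Pool.Agent.helper36.FF
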