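import Mathlib
import Pool.Agent.helper36.FF.G

set_option autoImplicit false

/-!
Part H: the family of monic representatives, and the comparison for one shift.
-/

namespace Pool.Agent.helper36.FF

open Polynomial

variable {F : Type*} [Field F] [Fintype F]

/-- many monic polynomials of degree `d` in a residue class -/
lemma monic_family (T x : F[X]) (hT : T ≠ 0) (d : ℕ) (hd : T.natDegree ≤ d) :
    ∃ Φ : (Fin (d - T.natDegree) → F) → F[X], Function.Injective Φ ∧
      ∀ t, (Φ t).Monic ∧ (Φ t).natDegree = d ∧ T ∣ Φ t - x := by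
  classical
  set T' : F[X] := T * C T.leadingCoeff⁻¹ with hT'
  have hT'm : T'.Monic := monic_mul_leadingCoeff_inv hT
  have hass : Associated T T' := associated_mul_unit_right T _ (isUnit_C.mpr
    (isUnit_iff_ne_zero.mpr (inv_ne_zero (leadingCoeff_ne_zero.mpr hT))))
  have hdegT : T'.natDegree = T.natDegree := natDegree_mul_leadingCoeff_inv T hT
  set m := d - T.natDegree with hm
  set U : (Fin m → F) → F[X] := fun t => X ^ m + ∑ i : Fin m, C (t i) * X ^ (i : ℕ) with hU
  have hUm : ∀ t, (U t).Monic := fun t => monic_X_pow_add (degree_sum_fin_lt t)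
  have hUd : ∀ t, (U t).natDegree = m := by
    intro t
    have h1 : (U t).degree = m := by
      simp only [hU]
      rw [degree_add_eq_left_of_degree_lt, degree_X_pow]
      rw [degree_X_pow]
      exact degree_sum_fin_lt t
    exact natDegree_eq_of_degree_eq_some h1
  have hUi : Function.Injective U := by
    intro s t hst
    funext j
    have h1 := congrArg (fun f : F[X] => f.coeff (j : ℕ)) hst
    simp only [hU, coeff_add, finsetSum_coeff, coeff_C_mul, coeff_X_pow] at h1
    have h2 : ∀ (f : Fin m → F), ∑ i : Fin m, f i * (if (j : ℕ) = (i : ℕ) then 1 else 0) = f j := by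
      intro f
      rw [Finset.sum_eq_single j]
      · simp
      · intro b _ hb
        rw [if_neg, mul_zero]
        intro h
        exact hb (Fin.ext h.symm)
      · intro h
        exact absurd (Finset.mem_univ j) h
    rw [h2 s, h2 t] at h1
    exact add_left_cancel h1
  have hdeg : ∀ t, (x %ₘ T').degree < (T' * U t).degree := by
    intro t
    refine lt_of_lt_of_le (degree_modByMonic_lt x hT'm) ?_
    have h0 : (0 : WithBot ℕ) ≤ (U t).degree := zero_le_degree_iff.mpr (hUm t).ne_zero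
    have h1 : (T' * U t).degree = T'.degree + (U t).degree := degree_mul
    rw [h1]
    exact le_add_of_nonneg_right h0
  refine ⟨fun t => x %ₘ T' + T' * U t, ?_, fun t => ⟨?_, ?_, ?_⟩⟩
  · intro s t hst
    have h1 := add_left_cancel hst
    exact hUi (mul_left_cancel₀ hT'm.ne_zero h1)
  · exact (hT'm.mul (hUm t)).add_of_right (hdeg t)
  · have h1 : (x %ₘ T' + T' * U t).natDegree = (T' * U t).natDegree :=
      natDegree_add_eq_right_of_degree_lt (hdeg t)
    show (x %ₘ T' + T' * U t).natDegree = d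
    rw [h1, hT'm.natDegree_mul (hUm t), hdegT, hUd]
    omega
  · rw [hass.dvd_iff_dvd_left]
    show T' ∣ x %ₘ T' + T' * U t - x
    have : x %ₘ T' + T' * U t - x = (x %ₘ T' - x) + T' * U t := by ring
    rw [this]
    exact dvd_add (dvd_modByMonic_sub x T') (dvd_mul_right _ _)

lemma cast_inj (hF : ringChar F ≠ 2) {a b : ℤ} (ha : a = 1 ∨ a = -1) (hb : b = 1 ∨ b = -1)
    (h : (a : AlgebraicClosure F) = (b : AlgebraicClosure F)) : a = b := by
  have h2 : (2 : AlgebraicClosure F) ≠ 0 := two_ne_zero_cl hF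
  rcases ha with rfl | rfl <;> rcases hb with rfl | rfl
  · rfl
  · exfalso
    apply h2
    push_cast at h
    linear_combination h
  · exfalso
    apply h2
    push_cast at h
    linear_combination -h
  · rfl

lemma psi_RR_pow (P B : F[X]) (n : ℕ) :
    psi (F := F) (RR P (B ^ n)) = psi (F := F) (RR P B) ^ n := by
  induction n with
  | zero =>
    have : RR P (1 : F[X]) = 1 := by
      unfold RR
      simp
    rw [pow_zero, pow_zero, this, psi_one]
  | succ n ih => rw [pow_succ, RR_mul_right, psi_mul, ih, pow_succ]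

lemma int_pow_odd (τ : ℤ) (hτ : τ = 1 ∨ τ = -1) (n : ℕ) (hn : Odd n) : τ ^ n = τ := by
  rcases hτ with rfl | rfl
  · simp
  · exact hn.neg_one_pow

/-- the comparison for one shift. `A = f₀ + g`, `k` with `A ≡ X ^ j k ^ p` modulo `P`,
`w₁, w₂` divisible by a large power of `Et`. -/
theorem compare_shift (hF : ringChar F ≠ 2) (p j : ℕ) [Fact p.Prime] [CharP F p]
    {P E Et s B A k w₁ w₂ : F[X]} {N d : ℕ} {τ₁ τ₂ : ℤ}
    (hP : P.Monic) (hi : Irreducible P) (hPX : IsCoprime P X)
    (hE : E ≠ 0) (hEt : E ∣ Et) (hXEt : X ∣ Et)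
    (hs : s.Monic) (hA : A = s * B) (hsN : s ∣ Et ^ N) (hcop : IsCoprime B Et)
    (hd : th j A = P * E) (hk : P ∣ A - X ^ j * k ^ p)
    (hw₁ : w₁.Monic) (hw₂ : w₂.Monic) (hd₁ : w₁.natDegree = d) (hd₂ : w₂.natDegree = d)
    (hbig : A.natDegree < j + p * d)
    (hT₁ : Et ^ (2 * N + 1) ∣ w₁) (hT₂ : Et ^ (2 * N + 1) ∣ w₂)
    (hτ₁ : τ₁ = 1 ∨ τ₁ = -1) (hτ₂ : τ₂ = 1 ∨ τ₂ = -1)
    (h₁ : psi (F := F) (RR P (w₁ + k)) = ((τ₁ : ℤ) : AlgebraicClosure F))
    (h₂ : psi (F := F) (RR P (w₂ + k)) = ((τ₂ : ℤ) : AlgebraicClosure F)) :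
    lam (A + X ^ j * w₁ ^ p) * τ₁ = lam (A + X ^ j * w₂ ^ p) * τ₂ := by
  have hp0 : p ≠ 0 := (Fact.out : p.Prime).ne_zero
  have hpodd : Odd p := by
    apply (Fact.out : p.Prime).odd_of_ne_two
    rintro rfl
    exact hF (ringChar.eq F 2)
  set ε : AlgebraicClosure F := psi (F := F) (RR P X) ^ j with hε
  have hε2 : ε ^ 2 = 1 := by
    rw [hε, ← pow_mul, mul_comm, pow_mul, psi_RR_sq hF hP hPX, one_pow]
  have hε0 : ε ≠ 0 := by
    intro h0
    rw [h0] at hε2
    norm_num at hε2
  -- decomposition for one w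
  have dec : ∀ (w : F[X]) (τ : ℤ), w.Monic → w.natDegree = d → Et ^ (2 * N + 1) ∣ w →
      (τ = 1 ∨ τ = -1) → psi (F := F) (RR P (w + k)) = ((τ : ℤ) : AlgebraicClosure F) →
      psi (F := F) (RR P (A + X ^ j * w ^ p)) = ε * ((τ : ℤ) : AlgebraicClosure F) ∧
      (A + X ^ j * w ^ p).Monic ∧ (A + X ^ j * w ^ p).natDegree = j + p * d ∧
      ∃ u : F[X], A + X ^ j * w ^ p = s * (B + s * Et * u) := by
    intro w τ hw hwd hT hτ hpsi
    have hXw : (X ^ j * w ^ p).Monic := (monic_X_pow j).mul (hw.pow p)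
    have hXwd : (X ^ j * w ^ p).natDegree = j + p * d := by
      rw [(monic_X_pow j).natDegree_mul (hw.pow p), natDegree_X_pow, hw.natDegree_pow, hwd]
    refine ⟨?_, ?_, ?_, ?_⟩
    · have h1 : P ∣ (A + X ^ j * w ^ p) - X ^ j * (w + k) ^ p := by
        rw [add_pow_char]
        have : A + X ^ j * w ^ p - X ^ j * (w ^ p + k ^ p) = A - X ^ j * k ^ p := by ring
        rw [this]
        exact hk
      rw [RR_congr h1, RR_mul_right, psi_mul, psi_RR_pow, psi_RR_pow, hpsi, ← Int.cast_pow,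
        int_pow_odd τ hτ p hpodd]
    · apply hXw.add_of_right
      apply degree_lt_degree
      rw [hXwd]
      exact hbig
    · rw [natDegree_add_eq_right_of_natDegree_lt]
      · exact hXwd
      · rw [hXwd]
        exact hbig
    · obtain ⟨v, hv⟩ := hT
      obtain ⟨e, he⟩ := hsN
      obtain ⟨p', hp'⟩ : ∃ p', p = p' + 1 := ⟨p - 1, by omega⟩
      refine ⟨e * e * v * w ^ p' * X ^ j, ?_⟩
      have h1 : w ^ p = w * w ^ p' := by rw [hp', pow_succ]; ring
      have h2 : Et ^ (2 * N + 1) = s * s * Et * (e * e) := by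
        rw [pow_succ, two_mul, pow_add, he]; ring
      rw [h1]
      have h3 : w = s * s * Et * (e * e) * v := by rw [← h2]; exact hv
      calc A + X ^ j * (w * w ^ p') = s * B + X ^ j * ((s * s * Et * (e * e) * v) * w ^ p') := by
            rw [← hA, ← h3]
        _ = s * (B + s * Et * (e * e * v * w ^ p' * X ^ j)) := by ring
  obtain ⟨a1, m1, n1, u1, e1⟩ := dec w₁ τ₁ hw₁ hd₁ hT₁ hτ₁ h₁
  obtain ⟨a2, m2, n2, u2, e2⟩ := dec w₂ τ₂ hw₂ hd₂ hT₂ hτ₂ h₂
  have hderiv : ∀ w : F[X], th j (A + X ^ j * w ^ p) = P * E := by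
    intro w
    rw [th_add, th_pth, add_zero, hd]
  have hcopH : ∀ u : F[X], IsCoprime (B + s * Et * u) Et := by
    intro u
    have h1 := hcop.add_mul_left_left (s * u)
    have : B + Et * (s * u) = B + s * Et * u := by ring
    rwa [this] at h1
  have hcopS : ∀ u : F[X], IsCoprime (B + s * Et * u) s := by
    intro u
    exact IsCoprime.of_isCoprime_of_dvd_right ((hcopH u).pow_right (n := N)) hsN
  have hcopE : ∀ u : F[X], IsCoprime (B + s * Et * u) E := by
    intro u
    exact IsCoprime.of_isCoprime_of_dvd_right (hcopH u) hEt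
  have hcopX : ∀ u : F[X], IsCoprime (B + s * Et * u) X := by
    intro u
    exact IsCoprime.of_isCoprime_of_dvd_right (hcopH u) hXEt
  have hcopP : ∀ (u w : F[X]) (τ : ℤ), (τ = 1 ∨ τ = -1) →
      psi (F := F) (RR P (A + X ^ j * w ^ p)) = ε * ((τ : ℤ) : AlgebraicClosure F) →
      A + X ^ j * w ^ p = s * (B + s * Et * u) → IsCoprime (B + s * Et * u) P := by
    intro u w τ hτ hpsi he
    have h1 : psi (F := F) (RR P (A + X ^ j * w ^ p)) ≠ 0 := by
      rw [hpsi]
      apply mul_ne_zero hε0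
      rcases hτ with rfl | rfl <;> simp
    have h2 := not_dvd_of_psi hi h1 hF
    symm
    rw [hi.coprime_iff_not_dvd]
    intro h3
    apply h2
    rw [he]
    exact h3.mul_left s
  have H1 : (B + s * Et * u1).Monic := hs.of_mul_monic_left (by rw [← e1]; exact m1)
  have H2 : (B + s * Et * u2).Monic := hs.of_mul_monic_left (by rw [← e2]; exact m2)
  have hdegH : (B + s * Et * u1).natDegree = (B + s * Et * u2).natDegree := by
    have h3 := congrArg natDegree e1
    have h4 := congrArg natDegree e2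
    rw [n1, hs.natDegree_mul H1] at h3
    rw [n2, hs.natDegree_mul H2] at h4
    omega
  have key := compare hF j (P := P) (E := E) (s := s) (H₁ := B + s * Et * u1)
    (H₂ := B + s * Et * u2) hP hs H1 H2 hdegH hE (by rw [← e1]; exact hderiv w₁)
    (by rw [← e2]; exact hderiv w₂)
    ⟨Et * (u1 - u2), by ring⟩
    (hEt.trans ⟨s * (u1 - u2), by ring⟩)
    (hXEt.trans ⟨s * (u1 - u2), by ring⟩)
    (hcopS u1) (hcopE u1) (hcopP u1 w₁ τ₁ hτ₁ a1 e1) (hcopX u1)
    (hcopS u2) (hcopE u2) (hcopP u2 w₂ τ₂ hτ₂ a2 e2) (hcopX u2)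
  rw [← e1, ← e2, a1, a2] at key
  have key2 : ((lam (A + X ^ j * w₁ ^ p) : ℤ) : AlgebraicClosure F) * ((τ₁ : ℤ) : AlgebraicClosure F)
      = ((lam (A + X ^ j * w₂ ^ p) : ℤ) : AlgebraicClosure F) * ((τ₂ : ℤ) : AlgebraicClosure F) := by
    apply mul_left_cancel₀ hε0
    linear_combination key
  rw [← Int.cast_mul, ← Int.cast_mul] at key2
  have hpm : ∀ (a b : ℤ), (a = 1 ∨ a = -1) → (b = 1 ∨ b = -1) → (a * b = 1 ∨ a * b = -1) := by
    rintro a b (rfl | rfl) (rfl | rfl) <;> simp
  exact cast_inj hF (hpm _ _ (lam_eq _) hτ₁) (hpm _ _ (lam_eq _) hτ₂) key2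

end Pool.Agent.helper36.FF
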