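import Mathlib
import Pool.Agent.helper36.FF.H

set_option autoImplicit false

/-!
Part K: as part I, with control of the square factors at the large primes.
-/

namespace Pool.Agent.helper36.FF

open Polynomial

variable {F : Type*} [Field F] [Fintype F]

lemma avoid_residue (p j : ℕ) [Fact p.Prime] [CharP F p] {π : F[X]} (hi : Irreducible π)
    (hX : IsCoprime π X) (G : Finset F[X]) (hG : G.card < Fintype.card F ^ π.natDegree) (f : F[X]) :
    ∃ y : F[X], ∀ g ∈ G, ¬ π ∣ f + g + X ^ j * y ^ p := by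
  classical
  have : Fact (Irreducible π) := ⟨hi⟩
  have hfin : Module.Finite F (AdjoinRoot π) := (AdjoinRoot.powerBasis hi.ne_zero).finite
  have : Finite (AdjoinRoot π) := Module.finite_of_finite F
  have : Fintype (AdjoinRoot π) := Fintype.ofFinite _
  have hcard : Fintype.card (AdjoinRoot π) = Fintype.card F ^ π.natDegree := by
    rw [Module.card_eq_pow_finrank (K := F) (V := AdjoinRoot π)]
    congr 1
    rw [(AdjoinRoot.powerBasis hi.ne_zero).finrank, AdjoinRoot.powerBasis_dim]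
  by_contra hcon
  push Not at hcon
  have h1 : ∀ z : AdjoinRoot π, ∃ g : G, AdjoinRoot.mk π f + AdjoinRoot.mk π g
      + AdjoinRoot.mk π X ^ j * z ^ p = 0 := by
    intro z
    obtain ⟨y, rfl⟩ := AdjoinRoot.mk_surjective z
    obtain ⟨g, hg, hd⟩ := hcon y
    refine ⟨⟨g, hg⟩, ?_⟩
    rw [← map_pow, ← map_pow, ← map_mul, ← map_add, ← map_add]
    exact AdjoinRoot.mk_eq_zero.mpr hd
  choose φ hφ using h1
  have hX0 : AdjoinRoot.mk π X ≠ 0 := by
    intro h0
    rw [AdjoinRoot.mk_eq_zero] at h0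
    exact (hi.coprime_iff_not_dvd.mp hX) h0
  have hchar : CharP (AdjoinRoot π) p :=
    charP_of_injective_algebraMap (algebraMap F (AdjoinRoot π)).injective p
  have hinj : Function.Injective φ := by
    intro z z' h
    have e1 := hφ z
    have e2 := hφ z'
    rw [h] at e1
    have e3 : AdjoinRoot.mk π X ^ j * z ^ p = AdjoinRoot.mk π X ^ j * z' ^ p := by
      linear_combination e1 - e2
    have e4 := mul_left_cancel₀ (pow_ne_zero _ hX0) e3
    exact frobenius_inj (AdjoinRoot π) p (by rw [frobenius_def, frobenius_def]; exact e4)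
  have h2 := Fintype.card_le_of_injective φ hinj
  rw [hcard, Fintype.card_coe] at h2
  omega

/-- finitely many monic irreducible polynomials dividing a nonzero polynomial -/
lemma finite_factors (E : F[X]) (hE : E ≠ 0) :
    ∃ L : Finset F[X], ∀ π : F[X], π ∈ L ↔ (π.Monic ∧ Irreducible π ∧ π ∣ E) := by
  classical
  have hfin : {π : F[X] | π.Monic ∧ Irreducible π ∧ π ∣ E}.Finite := by
    apply Set.Finite.subset
      (Set.finite_range (fun t : Fin (E.natDegree + 1) → F => ∑ i, C (t i) * X ^ (i : ℕ)))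
    rintro π ⟨_, _, h⟩
    have h1 : π.natDegree < E.natDegree + 1 := Nat.lt_succ_of_le (natDegree_le_of_dvd h hE)
    refine ⟨fun i => π.coeff i, ?_⟩
    have h2 := as_sum_range_C_mul_X_pow' (p := π) h1
    show ∑ i : Fin (E.natDegree + 1), C (π.coeff i) * X ^ (i : ℕ) = π
    rw [Fin.sum_univ_eq_sum_range (fun i => C (π.coeff i) * X ^ i) (E.natDegree + 1)]
    exact h2.symm
  exact ⟨hfin.toFinset, fun π => by simp⟩

lemma exists_monic_assoc {π : F[X]} (hi : Irreducible π) :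
    ∃ π' : F[X], π'.Monic ∧ Irreducible π' ∧ Associated π π' ∧ π'.natDegree = π.natDegree := by
  have hz0 : π ≠ 0 := hi.ne_zero
  have hass : Associated π (π * C π.leadingCoeff⁻¹) :=
    associated_mul_unit_right π _ (isUnit_C.mpr
      (isUnit_iff_ne_zero.mpr (inv_ne_zero (leadingCoeff_ne_zero.mpr hz0))))
  exact ⟨π * C π.leadingCoeff⁻¹, monic_mul_leadingCoeff_inv hz0, hass.irreducible hi, hass,
    natDegree_mul_leadingCoeff_inv π hz0⟩

lemma coprime_of_ne {π π' : F[X]} (h1 : π.Monic) (h2 : π'.Monic) (i1 : Irreducible π)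
    (i2 : Irreducible π') (hne : π ≠ π') : IsCoprime π π' := by
  rw [i1.coprime_iff_not_dvd]
  intro hd
  exact hne (eq_of_monic_of_associated h1 h2 (i1.associated_of_dvd i2 hd))

theorem main_large_j (hF : ringChar F ≠ 2) (G : Finset F[X]) (σ : F[X] → ℤ)
    (hσ : ∀ g ∈ G, σ g = 1 ∨ σ g = -1) (M a : F[X]) (hM : M ≠ 0) (p : ℕ) [Fact p.Prime]
    [CharP F p] (j : ℕ) (hj : j < p) :
    ∃ c : ℕ, ∀ d : ℕ, c ≤ d → ∃ S : Finset F[X], Fintype.card F ^ (d - c) ≤ S.card ∧
      ∀ f ∈ S, f.Monic ∧ f.natDegree = j + p * d ∧ M ∣ f - a ∧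
        (∀ g ∈ G, lam (f + g) = σ g) ∧
        ∀ π : F[X], Irreducible π → G.card < π.natDegree → ¬ π ∣ M → ∀ g ∈ G,
          ¬ π ^ 2 ∣ f + g := by
  classical
  have hpp : p.Prime := Fact.out
  set Γ : Finset F[X] := G.image (th j) with hΓ
  have hrex : ∀ γ : F[X], ∃ r : F[X], γ ∈ Γ → r ∈ G ∧ th j r = γ := by
    intro γ
    by_cases h : γ ∈ Γ
    · rw [hΓ, Finset.mem_image] at h
      obtain ⟨r, hr, hr2⟩ := h
      exact ⟨r, fun _ => ⟨hr, hr2⟩⟩
    · exact ⟨0, fun h' => absurd h' h⟩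
  choose r hr using hrex
  have hmemΓ : ∀ g ∈ G, th j g ∈ Γ := fun g hg => Finset.mem_image_of_mem _ hg
  have hκex : ∀ g : F[X], ∃ k : F[X], g ∈ G → g = r (th j g) + X ^ j * k ^ p := by
    intro g
    by_cases h : g ∈ G
    · have h1 := (hr _ (hmemΓ g h)).2
      obtain ⟨k, hk⟩ := th_kernel p j hj (g - r (th j g)) (by
        rw [th_sub, h1, sub_self])
      exact ⟨k, fun _ => by rw [← hk]; ring⟩
    · exact ⟨0, fun h' => absurd h' h⟩
  choose κ hκ using hκex
  set K : F[X] → Finset F[X] := fun γ => (G.filter (fun g => th j g = γ)).image κ with hK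
  -- the degree bound
  set D : ℕ := ∑ g ∈ G, (g.natDegree + (κ g).natDegree + (th j g).natDegree)
    + M.natDegree + (2 * (G.card * 2 ^ G.card)) ^ 2 + 1 with hD
  have hDg : ∀ g ∈ G, g.natDegree + (κ g).natDegree + (th j g).natDegree ≤ D := by
    intro g hg
    have h1 := Finset.single_le_sum
      (f := fun g : F[X] => g.natDegree + (κ g).natDegree + (th j g).natDegree)
      (fun i _ => Nat.zero_le _) hg
    have h2 : g.natDegree + (κ g).natDegree + (th j g).natDegree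
      ≤ ∑ g ∈ G, (g.natDegree + (κ g).natDegree + (th j g).natDegree) := h1
    omega
  obtain ⟨P, hP1, hPc⟩ := exists_primes Γ D
  have hPm : ∀ γ ∈ Γ, (P γ).Monic := fun γ h => (hP1 γ h).1
  have hPi : ∀ γ ∈ Γ, Irreducible (P γ) := fun γ h => (hP1 γ h).2.1
  have hPd : ∀ γ ∈ Γ, D < (P γ).natDegree := fun γ h => (hP1 γ h).2.2
  have hΓdeg : ∀ γ ∈ Γ, γ.natDegree ≤ D := by
    intro γ h
    rw [hΓ, Finset.mem_image] at h
    obtain ⟨g, hg, rfl⟩ := h
    have := hDg g hg
    omega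
  have hPX : ∀ γ ∈ Γ, IsCoprime (P γ) X := by
    intro γ h
    rw [(hPi γ h).coprime_iff_not_dvd]
    apply (hPm γ h).not_dvd_of_natDegree_lt X_ne_zero
    have := hPd γ h
    rw [natDegree_X]
    omega
  -- f₀
  obtain ⟨x1, hx1⟩ := crt_finset Γ (fun γ => P γ ^ 3) (fun γ => P γ ^ 2 - r γ) (by
    intro γ h γ' h' hne
    exact (hPc γ h γ' h' hne).pow)
  have hPM : ∀ γ ∈ Γ, IsCoprime (P γ) M := by
    intro γ h
    rw [(hPi γ h).coprime_iff_not_dvd]
    apply (hPm γ h).not_dvd_of_natDegree_lt hM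
    have := hPd γ h
    omega
  obtain ⟨x2, hx2a, hx2b⟩ := crt_pair (A := ∏ γ ∈ Γ, P γ ^ 3) (B := M)
    (IsCoprime.prod_left fun γ h => (hPM γ h).pow_left) x1 a
  have hprod0 : (∏ γ ∈ Γ, P γ ^ 3) * M ≠ 0 := by
    apply mul_ne_zero _ hM
    exact Finset.prod_ne_zero_iff.mpr (fun γ h => pow_ne_zero _ (hPm γ h).ne_zero)
  have hx2P : ∀ γ ∈ Γ, P γ ^ 3 ∣ x2 - (P γ ^ 2 - r γ) := by
    intro γ h
    have h0 : P γ ^ 3 ∣ ∏ γ ∈ Γ, P γ ^ 3 := Finset.dvd_prod_of_mem (fun γ => P γ ^ 3) h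
    have h2 : P γ ^ 3 ∣ x2 - x1 := h0.trans hx2a
    have : x2 - (P γ ^ 2 - r γ) = (x2 - x1) + (x1 - (P γ ^ 2 - r γ)) := by ring
    rw [this]
    exact dvd_add h2 (hx1 γ h)
  -- E γ
  have hEex : ∀ γ : F[X], ∃ E : F[X], γ ∈ Γ → th j x2 + γ = P γ * E ∧ ¬ P γ ∣ E := by
    intro γ
    by_cases h : γ ∈ Γ
    · obtain ⟨t, ht⟩ := hx2P γ h
      have h1 : x2 = P γ ^ 2 - r γ + P γ ^ 3 * t := by linear_combination ht
      have h2 : th j x2 + γ = P γ * (2 * X * derivative (P γ)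
          + P γ * (3 * X * derivative (P γ) * t + P γ * X * derivative t
            - (j : F[X]) * (1 + P γ * t))) := by
        have h3 := congrArg (th j) h1
        rw [th_add, th_sub, (hr γ h).2] at h3
        rw [h3]
        unfold th
        rw [derivative_mul, derivative_pow, derivative_pow]
        simp only [Nat.cast_ofNat, C_ofNat, Nat.add_one_sub_one, pow_one]
        norm_num
        ring
      refine ⟨_, fun _ => ⟨h2, ?_⟩⟩
      intro hdvd
      have h4 : P γ ∣ 2 * X * derivative (P γ) :=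
        (dvd_add_left (dvd_mul_right (P γ) _)).mp hdvd
      have h5 : IsCoprime (P γ) (derivative (P γ)) :=
        (PerfectField.separable_of_irreducible (hPi γ h))
      have h6 : P γ ∣ (2 : F[X]) * X := h5.dvd_of_dvd_mul_right h4
      have h6' : P γ ∣ (2 : F[X]) := (hPX γ h).dvd_of_dvd_mul_right h6
      have h7 : IsUnit (2 : F[X]) := by
        have : (2 : F[X]) = C 2 := (C_ofNat 2).symm
        rw [this, isUnit_C]
        exact isUnit_iff_ne_zero.mpr (Ring.two_ne_zero hF)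
      exact (hPi γ h).not_isUnit (isUnit_of_dvd_unit h6' h7)
    · exact ⟨0, fun h' => absurd h' h⟩
  choose E hE using hEex
  have hE0 : ∀ γ ∈ Γ, E γ ≠ 0 := by
    intro γ h h0
    exact (hE γ h).2 (by rw [h0]; exact dvd_zero _)
  have hPE : ∀ γ ∈ Γ, ∀ γ' ∈ Γ, ¬ P γ ∣ E γ' := by
    intro γ h γ' h'
    by_cases heq : γ = γ'
    · subst heq; exact (hE γ h).2
    · intro hdvd
      have h1 : P γ ∣ th j x2 + γ := by rw [(hE γ h).1]; exact dvd_mul_right _ _
      have h2 : P γ ∣ th j x2 + γ' := by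
        rw [(hE γ' h').1]; exact hdvd.mul_left _
      have h3 : P γ ∣ γ - γ' := by
        have : γ - γ' = (th j x2 + γ) - (th j x2 + γ') := by ring
        rw [this]
        exact dvd_sub h1 h2
      refine (hPm γ h).not_dvd_of_natDegree_lt (sub_ne_zero.mpr heq) ?_ h3
      have h4 := natDegree_sub_le γ γ'
      have h5 := hΓdeg γ h
      have h6 := hΓdeg γ' h'
      have h7 := hPd γ h
      have h8 : max γ.natDegree γ'.natDegree ≤ D := max_le h5 h6
      omega
  -- the large primes dividing some E γ, and the base point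
  have hEprod0 : ∏ γ ∈ Γ, E γ ≠ 0 := Finset.prod_ne_zero_iff.mpr hE0
  obtain ⟨LP0, hLP0⟩ := finite_factors (∏ γ ∈ Γ, E γ) hEprod0
  set LP : Finset F[X] := LP0.filter (fun π => G.card < π.natDegree ∧ ¬ π ∣ M ∧ ¬ π ∣ X) with hLP
  have hLPmem : ∀ π : F[X], π ∈ LP ↔ (π.Monic ∧ Irreducible π ∧ π ∣ ∏ γ ∈ Γ, E γ) ∧
      (G.card < π.natDegree ∧ ¬ π ∣ M ∧ ¬ π ∣ X) := by
    intro π
    rw [hLP, Finset.mem_filter, hLP0]
  have hyex : ∀ π : F[X], ∃ y : F[X], π ∈ LP → ∀ g ∈ G, ¬ π ∣ x2 + g + X ^ j * y ^ p := by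
    intro π
    by_cases h : π ∈ LP
    · rw [hLPmem] at h
      obtain ⟨⟨_, h2, _⟩, h4, _, h6⟩ := h
      obtain ⟨y, hy⟩ := avoid_residue p j h2 (h2.coprime_iff_not_dvd.mpr h6) G
        (h4.trans (Nat.lt_pow_self Fintype.one_lt_card)) x2
      exact ⟨y, fun _ => hy⟩
    · exact ⟨0, fun h' => absurd h' h⟩
  choose yy hyy using hyex
  obtain ⟨wb1, hwb1⟩ := crt_finset LP (fun π => π) yy (by
    intro π h π' h' hne
    rw [hLPmem] at h h'
    exact coprime_of_ne h.1.1 h'.1.1 h.1.2.1 h'.1.2.1 hne)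
  obtain ⟨wb2, hwb2a, hwb2b⟩ := crt_pair (A := (∏ γ ∈ Γ, P γ ^ 3) * M) (B := ∏ π ∈ LP, π) (by
    apply IsCoprime.prod_right
    intro π h
    rw [hLPmem] at h
    obtain ⟨⟨h1, h2, h3⟩, _, h5, _⟩ := h
    apply IsCoprime.mul_left
    · apply IsCoprime.prod_left
      intro γ hγ
      apply IsCoprime.pow_left
      apply coprime_of_ne (hPm γ hγ) h1 (hPi γ hγ) h2
      rintro heq
      rw [← heq] at h3
      obtain ⟨γ', hγ', h7⟩ := ((hPi γ hγ).prime.dvd_finsetProd_iff _).mp h3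
      exact hPE γ hγ γ' hγ' h7
    · exact (h2.coprime_iff_not_dvd.mpr h5).symm) 0 wb1
  have hLPprod0 : ∏ π ∈ LP, π ≠ 0 := by
    apply Finset.prod_ne_zero_iff.mpr
    intro π h
    rw [hLPmem] at h
    exact h.1.1.ne_zero
  obtain ⟨wb, hwba, hwbd⟩ := exists_avoid (((∏ γ ∈ Γ, P γ ^ 3) * M) * ∏ π ∈ LP, π) wb2
    (mul_ne_zero hprod0 hLPprod0) (x2.natDegree + D)
  have hwb0 : (∏ γ ∈ Γ, P γ ^ 3) * M ∣ wb := by
    have h1 : (∏ γ ∈ Γ, P γ ^ 3) * M ∣ wb - wb2 := (dvd_mul_right _ _).trans hwba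
    have : wb = (wb - wb2) + (wb2 - 0) := by ring
    rw [this]
    exact dvd_add h1 hwb2a
  have hwbL : ∀ π ∈ LP, π ∣ wb - yy π := by
    intro π h
    have h0 : π ∣ ∏ π ∈ LP, π := Finset.dvd_prod_of_mem (fun π => π) h
    have h1 : π ∣ wb - wb2 := (h0.trans (dvd_mul_left _ _)).trans hwba
    have h2 : π ∣ wb2 - wb1 := h0.trans hwb2b
    have : wb - yy π = (wb - wb2) + (wb2 - wb1) + (wb1 - yy π) := by ring
    rw [this]
    exact dvd_add (dvd_add h1 h2) (hwb1 π h)
  set f₀ : F[X] := x2 + X ^ j * wb ^ p with hf₀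
  have hXwb : (X ^ j * wb ^ p).natDegree = j + p * wb.natDegree := by
    rw [natDegree_mul (pow_ne_zero _ X_ne_zero) (pow_ne_zero _ (by
      rintro rfl
      simp at hwbd)), natDegree_X_pow, natDegree_pow]
  have hwbp : wb.natDegree ≤ p * wb.natDegree := Nat.le_mul_of_pos_left _ hpp.pos
  have hf₀d : D < f₀.natDegree := by
    rw [hf₀, natDegree_add_eq_right_of_natDegree_lt (by rw [hXwb]; omega), hXwb]
    omega
  have hthf₀ : th j f₀ = th j x2 := by rw [hf₀, th_add, th_pth, add_zero]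
  have hf₀M : M ∣ f₀ - a := by
    have h1 : M ∣ X ^ j * wb ^ p :=
      (((dvd_mul_left _ _).trans hwb0).trans (dvd_pow_self _ hpp.ne_zero)).mul_left _
    have : f₀ - a = X ^ j * wb ^ p + (x2 - a) := by rw [hf₀]; ring
    rw [this]
    exact dvd_add h1 hx2b
  have hf₀P : ∀ γ ∈ Γ, P γ ^ 3 ∣ f₀ - (P γ ^ 2 - r γ) := by
    intro γ h
    have h0 : P γ ^ 3 ∣ ∏ γ ∈ Γ, P γ ^ 3 := Finset.dvd_prod_of_mem (fun γ => P γ ^ 3) h
    have h1 : P γ ^ 3 ∣ X ^ j * wb ^ p :=
      (((h0.trans (dvd_mul_right _ _)).trans hwb0).trans (dvd_pow_self _ hpp.ne_zero)).mul_left _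
    have : f₀ - (P γ ^ 2 - r γ) = X ^ j * wb ^ p + (x2 - (P γ ^ 2 - r γ)) := by rw [hf₀]; ring
    rw [this]
    exact dvd_add h1 (hx2P γ h)
  have hf₀g : ∀ g ∈ G, f₀ + g ≠ 0 ∧ (f₀ + g).natDegree = f₀.natDegree := by
    intro g hg
    have h1 := hDg g hg
    have h2 : (f₀ + g).natDegree = f₀.natDegree :=
      natDegree_add_eq_left_of_natDegree_lt (by omega)
    refine ⟨?_, h2⟩
    intro h0
    rw [h0, natDegree_zero] at h2
    omega
  -- the key property at the large primes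
  have hlarge : ∀ π : F[X], Irreducible π → G.card < π.natDegree → ¬ π ∣ M → ¬ π ∣ X →
      π ∣ ∏ γ ∈ Γ, E γ → ∀ g ∈ G, ¬ π ∣ f₀ + g := by
    intro π hi hd hM' hX' hE' g hg hdvd
    obtain ⟨π', m', i', hass, hdeg'⟩ := exists_monic_assoc hi
    have hmem : π' ∈ LP := by
      rw [hLPmem]
      refine ⟨⟨m', i', hass.dvd_iff_dvd_left.mp hE'⟩, by rw [hdeg']; exact hd, ?_, ?_⟩
      · rwa [← hass.dvd_iff_dvd_left]
      · rwa [← hass.dvd_iff_dvd_left]
    apply hyy π' hmem g hg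
    have h1 : π' ∣ f₀ + g := hass.dvd_iff_dvd_left.mp hdvd
    have h2 : π' ∣ wb ^ p - yy π' ^ p := (hwbL π' hmem).trans (sub_dvd_pow_sub_pow _ _ p)
    have : x2 + g + X ^ j * yy π' ^ p = (f₀ + g) - X ^ j * (wb ^ p - yy π' ^ p) := by
      rw [hf₀]; ring
    rw [this]
    exact dvd_sub h1 (h2.mul_left _)
  set Et : F[X] := X * M * ∏ γ ∈ Γ, E γ with hEt
  have hEt0 : Et ≠ 0 :=
    mul_ne_zero (mul_ne_zero X_ne_zero hM) (Finset.prod_ne_zero_iff.mpr hE0)
  have hPEt : ∀ γ ∈ Γ, IsCoprime (P γ) Et := by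
    intro γ h
    apply ((hPX γ h).mul_right (hPM γ h)).mul_right
    apply IsCoprime.prod_right
    intro γ' h'
    rw [(hPi γ h).coprime_iff_not_dvd]
    exact hPE γ h γ' h'
  have hEdvd : ∀ γ ∈ Γ, E γ ∣ Et := by
    intro γ h
    exact (Finset.dvd_prod_of_mem E h).mul_left _
  have hXEt : X ∣ Et := ⟨M * ∏ γ ∈ Γ, E γ, by rw [hEt]; ring⟩
  have hMEt : M ∣ Et := ⟨X * ∏ γ ∈ Γ, E γ, by rw [hEt]; ring⟩
  -- s g, B g
  have hsex : ∀ g : F[X], ∃ (s B : F[X]) (N : ℕ), g ∈ G → s.Monic ∧ f₀ + g = s * B ∧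
      s ∣ Et ^ N ∧ IsCoprime B Et := by
    intro g
    by_cases h : g ∈ G
    · obtain ⟨s, B, N, h1, h2, h3, h4⟩ := exists_part Et hEt0 (f₀ + g) (hf₀g g h).1
      exact ⟨s, B, N, fun _ => ⟨h1, h2, h3, h4⟩⟩
    · exact ⟨0, 0, 0, fun h' => absurd h' h⟩
  choose s B N hsBN using hsex
  set N0 : ℕ := ∑ g ∈ G, N g with hN0
  have hsN0 : ∀ g ∈ G, s g ∣ Et ^ N0 := by
    intro g hg
    refine (hsBN g hg).2.2.1.trans (pow_dvd_pow _ ?_)
    exact Finset.single_le_sum (f := N) (fun i _ => Nat.zero_le _) hg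
  set T0 : F[X] := Et ^ (2 * N0 + 1) with hT0
  set T : F[X] := T0 * ∏ γ ∈ Γ, P γ with hT
  have hT0ne : T0 ≠ 0 := pow_ne_zero _ hEt0
  have hTne : T ≠ 0 :=
    mul_ne_zero hT0ne (Finset.prod_ne_zero_iff.mpr (fun γ h => (hPm γ h).ne_zero))
  -- existence of residue classes with prescribed characters
  have hgood : ∀ τ : F[X] → ℤ, (∀ g ∈ G, τ g = 1 ∨ τ g = -1) → ∃ x : F[X], ∀ w : F[X],
      T ∣ w - x → T0 ∣ w ∧ ∀ g ∈ G,
        psi (F := F) (RR (P (th j g)) (w + κ g)) = ((τ g : ℤ) : AlgebraicClosure F) := by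
    intro τ hτ
    have hxex : ∀ γ : F[X], ∃ x : F[X], γ ∈ Γ → ∀ k ∈ K γ,
        psi (F := F) (RR (P γ) (x + k))
          = ((τ (r γ + X ^ j * k ^ p) : ℤ) : AlgebraicClosure F) := by
      intro γ
      by_cases h : γ ∈ Γ
      · have hKmem : ∀ k ∈ K γ, ∃ g ∈ G, th j g = γ ∧ κ g = k := by
          intro k hk
          simp only [hK, Finset.mem_image, Finset.mem_filter] at hk
          obtain ⟨g, ⟨hg1, hg2⟩, hg3⟩ := hk
          exact ⟨g, hg1, hg2, hg3⟩
        have hcardK : (K γ).card ≤ G.card :=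
          Finset.card_image_le.trans (Finset.card_filter_le _ _)
        obtain ⟨x, hx⟩ := exists_residue hF (hPm γ h) (hPi γ h) (K γ) (by
            intro k hk
            obtain ⟨g, hg1, hg2, rfl⟩ := hKmem k hk
            have h1 := hDg g hg1
            have h2 := hPd γ h
            omega) (fun k => τ (r γ + X ^ j * k ^ p)) (by
            intro k hk
            obtain ⟨g, hg1, hg2, rfl⟩ := hKmem k hk
            have h1 := hκ g hg1
            rw [hg2] at h1
            rw [← h1]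
            exact hτ g hg1) (by
            have h1 : (2 * ((K γ).card * 2 ^ (K γ).card)) ^ 2 ≤ D := by
              have : (2 * ((K γ).card * 2 ^ (K γ).card)) ^ 2 ≤ (2 * (G.card * 2 ^ G.card)) ^ 2 := by
                gcongr
                norm_num
              omega
            have h2 := hPd γ h
            have h3 : (P γ).natDegree < Fintype.card F ^ (P γ).natDegree :=
              Nat.lt_pow_self Fintype.one_lt_card
            omega)
        exact ⟨x, fun _ => hx⟩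
      · exact ⟨0, fun h' => absurd h' h⟩
    choose xx hxx using hxex
    obtain ⟨y, hy⟩ := crt_finset Γ P xx hPc
    obtain ⟨x, hxa, hxb⟩ := crt_pair (A := T0) (B := ∏ γ ∈ Γ, P γ)
      (IsCoprime.prod_right fun γ h => ((hPEt γ h).symm.pow_left)) 0 y
    refine ⟨x, fun w hw => ⟨?_, ?_⟩⟩
    · have h1 : T0 ∣ w - x := (dvd_mul_right _ _).trans hw
      have : w = (w - x) + (x - 0) := by ring
      rw [this]
      exact dvd_add h1 hxa
    · intro g hg
      have hγ := hmemΓ g hg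
      have h1 : P (th j g) ∣ w - xx (th j g) := by
        have h2 : P (th j g) ∣ ∏ γ ∈ Γ, P γ := Finset.dvd_prod_of_mem P hγ
        have h3 : P (th j g) ∣ w - x := (h2.trans (dvd_mul_left _ _)).trans hw
        have : w - xx (th j g) = (w - x) + (x - y) + (y - xx (th j g)) := by ring
        rw [this]
        exact dvd_add (dvd_add h3 (h2.trans hxb)) (hy _ hγ)
      have h4 : P (th j g) ∣ (w + κ g) - (xx (th j g) + κ g) := by
        have : (w + κ g) - (xx (th j g) + κ g) = w - xx (th j g) := by ring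
        rw [this]
        exact h1
      rw [RR_congr h4]
      have h5 := hxx _ hγ (κ g) (by
        simp only [hK]
        exact Finset.mem_image_of_mem _ (Finset.mem_filter.mpr ⟨hg, rfl⟩))
      rw [h5, ← hκ g hg]
  -- comparison
  have hcomp : ∀ (g w₁ w₂ : F[X]) (τ₁ τ₂ : ℤ) (d : ℕ), g ∈ G → f₀.natDegree < j + p * d →
      w₁.Monic → w₂.Monic → w₁.natDegree = d → w₂.natDegree = d → T0 ∣ w₁ → T0 ∣ w₂ →
      (τ₁ = 1 ∨ τ₁ = -1) → (τ₂ = 1 ∨ τ₂ = -1) →
      psi (F := F) (RR (P (th j g)) (w₁ + κ g)) = ((τ₁ : ℤ) : AlgebraicClosure F) →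
      psi (F := F) (RR (P (th j g)) (w₂ + κ g)) = ((τ₂ : ℤ) : AlgebraicClosure F) →
      lam (f₀ + g + X ^ j * w₁ ^ p) * τ₁ = lam (f₀ + g + X ^ j * w₂ ^ p) * τ₂ := by
    intro g w₁ w₂ τ₁ τ₂ d hg hbig m1 m2 d1 d2 t1 t2 hτ1 hτ2 p1 p2
    have hγ := hmemΓ g hg
    obtain ⟨hs1, hs2, _, hs4⟩ := hsBN g hg
    refine compare_shift hF p j (hPm _ hγ) (hPi _ hγ) (hPX _ hγ) (hE0 _ hγ) (hEdvd _ hγ) hXEt
      hs1 hs2 (hsN0 g hg) hs4 ?_ ?_ m1 m2 d1 d2 ?_ t1 t2 hτ1 hτ2 p1 p2
    · rw [th_add, hthf₀]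
      exact (hE _ hγ).1
    · have h1 : f₀ + g - X ^ j * κ g ^ p = (f₀ - (P (th j g) ^ 2 - r (th j g)))
          + P (th j g) * P (th j g) := by
        have h2 := hκ g hg
        linear_combination h2
      rw [h1]
      apply dvd_add _ (dvd_mul_right _ _)
      refine dvd_trans ?_ (hf₀P _ hγ)
      exact dvd_pow_self _ (by norm_num)
    · rw [(hf₀g g hg).2]
      exact hbig
  -- final
  refine ⟨T.natDegree + f₀.natDegree + 1, fun d hd => ?_⟩
  have hTd : T.natDegree ≤ d := by omega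
  have hfd : f₀.natDegree < j + p * d := by
    have h1 : 1 ≤ p := hpp.one_lt.le
    have h2 : d ≤ p * d := Nat.le_mul_of_pos_left d h1
    omega
  obtain ⟨y1, hy1⟩ := hgood (fun _ => 1) (fun _ _ => Or.inl rfl)
  obtain ⟨Φ1, _, hΦ1⟩ := monic_family T y1 hTne d hTd
  obtain ⟨m1, d1, c1⟩ := hΦ1 (fun _ => 0)
  set w₁ : F[X] := Φ1 (fun _ => 0) with hw₁
  obtain ⟨t1, g1⟩ := hy1 w₁ c1
  obtain ⟨y2, hy2⟩ := hgood (fun g => lam (f₀ + g + X ^ j * w₁ ^ p) * σ g) (by
    intro g hg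
    rcases lam_eq (f₀ + g + X ^ j * w₁ ^ p) with h | h <;> rcases hσ g hg with h' | h' <;>
      simp [h, h'])
  obtain ⟨Φ2, hΦ2i, hΦ2⟩ := monic_family T y2 hTne d hTd
  refine ⟨Finset.univ.image (fun t => f₀ + X ^ j * (Φ2 t) ^ p), ?_, ?_⟩
  · rw [Finset.card_image_of_injective]
    · rw [Finset.card_univ, Fintype.card_fun, Fintype.card_fin]
      exact Nat.pow_le_pow_right Fintype.card_pos (by omega)
    · intro s t hst
      have h1 : X ^ j * (Φ2 s) ^ p = X ^ j * (Φ2 t) ^ p := add_left_cancel hst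
      exact hΦ2i (pth_inj p (mul_left_cancel₀ (pow_ne_zero _ X_ne_zero) h1))
  · intro f hf
    rw [Finset.mem_image] at hf
    obtain ⟨t, _, rfl⟩ := hf
    obtain ⟨m2, d2, c2⟩ := hΦ2 t
    obtain ⟨t2, g2⟩ := hy2 (Φ2 t) c2
    have hXw : (X ^ j * (Φ2 t) ^ p).Monic := (monic_X_pow j).mul (m2.pow p)
    have hXwd : (X ^ j * (Φ2 t) ^ p).natDegree = j + p * d := by
      rw [(monic_X_pow j).natDegree_mul (m2.pow p), natDegree_X_pow, m2.natDegree_pow, d2]
    refine ⟨?_, ?_, ?_, ?_, ?_⟩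
    · apply hXw.add_of_right
      apply degree_lt_degree
      rw [hXwd]
      exact hfd
    · rw [natDegree_add_eq_right_of_natDegree_lt]
      · exact hXwd
      · rw [hXwd]
        exact hfd
    · have h1 : M ∣ X ^ j * (Φ2 t) ^ p := by
        have h2 : M ∣ T0 := hMEt.trans (dvd_pow_self _ (by omega))
        exact ((h2.trans t2).trans (dvd_pow_self _ hpp.ne_zero)).mul_left _
      have : f₀ + X ^ j * (Φ2 t) ^ p - a = (f₀ - a) + X ^ j * (Φ2 t) ^ p := by ring
      rw [this]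
      exact dvd_add hf₀M h1
    · intro g hg
      have hpm : lam (f₀ + g + X ^ j * w₁ ^ p) * σ g = 1
          ∨ lam (f₀ + g + X ^ j * w₁ ^ p) * σ g = -1 := by
        rcases lam_eq (f₀ + g + X ^ j * w₁ ^ p) with h | h <;> rcases hσ g hg with h' | h' <;>
          simp [h, h']
      have h1 := hcomp g w₁ (Φ2 t) 1 _ d hg hfd m1 m2 d1 d2 t1 t2 (Or.inl rfl) hpm
        (by simpa using g1 g hg) (g2 g hg)
      have h2 : f₀ + X ^ j * (Φ2 t) ^ p + g = f₀ + g + X ^ j * (Φ2 t) ^ p := by ring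
      rw [h2]
      have h3 : σ g * σ g = 1 := by
        rcases hσ g hg with h | h <;> rw [h] <;> norm_num
      have h4 := lam_sq (f₀ + g + X ^ j * w₁ ^ p)
      set L1 := lam (f₀ + g + X ^ j * w₁ ^ p)
      set L2 := lam (f₀ + g + X ^ j * (Φ2 t) ^ p)
      -- h1 : L1 * 1 = L2 * (L1 * σ g)
      have h5 : L1 * (L2 * σ g) = L1 * 1 := by rw [h1]; ring
      have h6 : L1 ≠ 0 := by
        intro h0
        rw [h0] at h4
        norm_num at h4
      have h7 := mul_left_cancel₀ h6 h5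
      calc L2 = L2 * (σ g * σ g) := by rw [h3, mul_one]
        _ = (L2 * σ g) * σ g := by ring
        _ = σ g := by rw [h7, one_mul]
    · intro π hi hd hM' g hg hdvd
      have hγ := hmemΓ g hg
      have hG1 : 1 ≤ G.card := Finset.card_pos.mpr ⟨g, hg⟩
      have hX' : ¬ π ∣ X := by
        intro h
        have := natDegree_le_of_dvd h X_ne_zero
        rw [natDegree_X] at this
        omega
      have h2 : f₀ + X ^ j * (Φ2 t) ^ p + g = f₀ + g + X ^ j * (Φ2 t) ^ p := by ring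
      rw [h2] at hdvd
      obtain ⟨u, hu⟩ := hdvd
      -- π divides th j of it
      have h3 : π ∣ th j (f₀ + g + X ^ j * (Φ2 t) ^ p) := by
        rw [hu]
        unfold th
        rw [derivative_mul, derivative_pow]
        have : X * (C ((2 : ℕ) : F) * π ^ (2 - 1) * derivative π * u + π ^ 2 * derivative u)
            - (j : F[X]) * (π ^ 2 * u) = π * (X * (C ((2 : ℕ) : F) * derivative π * u
              + π * derivative u) - (j : F[X]) * (π * u)) := by
          norm_num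
          ring
        rw [this]
        exact dvd_mul_right _ _
      rw [th_add, th_pth, add_zero, th_add, hthf₀, (hE _ hγ).1] at h3
      have h4 : π ∣ f₀ + g + X ^ j * (Φ2 t) ^ p := ⟨π * u, by rw [hu]; ring⟩
      rcases hi.prime.dvd_or_dvd h3 with h5 | h5
      · -- π is associated to P
        have h6 : Associated π (P (th j g)) := hi.associated_of_dvd (hPi _ hγ) h5
        have h7 : P (th j g) ∣ f₀ + g + X ^ j * (Φ2 t) ^ p := h6.dvd_iff_dvd_left.mp h4
        -- but then P divides w + κ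
        have h8 : P (th j g) ∣ f₀ + g - X ^ j * κ g ^ p := by
          have h1 : f₀ + g - X ^ j * κ g ^ p = (f₀ - (P (th j g) ^ 2 - r (th j g)))
              + P (th j g) * P (th j g) := by
            have h2 := hκ g hg
            linear_combination h2
          rw [h1]
          apply dvd_add _ (dvd_mul_right _ _)
          refine dvd_trans ?_ (hf₀P _ hγ)
          exact dvd_pow_self _ (by norm_num)
        have h9 : P (th j g) ∣ X ^ j * (Φ2 t + κ g) ^ p := by
          rw [add_pow_char]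
          have : X ^ j * (Φ2 t ^ p + κ g ^ p) = (f₀ + g + X ^ j * (Φ2 t) ^ p)
            - (f₀ + g - X ^ j * κ g ^ p) := by ring
          rw [this]
          exact dvd_sub h7 h8
        have h10 : P (th j g) ∣ (Φ2 t + κ g) ^ p :=
          ((hPX _ hγ).pow_right).dvd_of_dvd_mul_left h9
        have h11 : P (th j g) ∣ Φ2 t + κ g := (hPi _ hγ).prime.dvd_of_dvd_pow h10
        have h12 := g2 g hg
        refine not_dvd_of_psi (hPi _ hγ) ?_ hF h11
        rw [h12]
        rcases lam_eq (f₀ + g + X ^ j * w₁ ^ p) with h | h <;> rcases hσ g hg with h' | h' <;>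
          simp [h, h']
      · have h6 : π ∣ ∏ γ ∈ Γ, E γ := h5.trans (Finset.dvd_prod_of_mem E hγ)
        apply hlarge π hi hd hM' hX' h6 g hg
        have h7 : π ∣ Φ2 t := by
          have h8 : π ∣ Et := by
            rw [hEt]
            exact h6.mul_left _
          exact (h8.trans (dvd_pow_self _ (by omega))).trans t2
        have h9 : f₀ + g = (f₀ + g + X ^ j * (Φ2 t) ^ p) - X ^ j * (Φ2 t) ^ p := by ring
        rw [h9]
        exact dvd_sub h4 ((h7.trans (dvd_pow_self _ hpp.ne_zero)).mul_left _)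


end Pool.Agent.helper36.FF
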