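import Mathlib
import Pool.Agent.helper36.FF.K

set_option autoImplicit false

/-!
Part L: all degrees, all admissible primes, and all families of pairwise non-proportional
linear forms.
-/

namespace Pool.Agent.helper36.FF

open Polynomial

variable {F : Type*} [Field F] [Fintype F]

lemma finite_small (D : ℕ) (Q : F[X] → Prop) :
    ∃ L : Finset F[X], ∀ π : F[X], π ∈ L ↔ (π.natDegree ≤ D ∧ Q π) := by
  classical
  have hfin : {π : F[X] | π.natDegree ≤ D ∧ Q π}.Finite := by
    apply Set.Finite.subset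
      (Set.finite_range (fun t : Fin (D + 1) → F => ∑ i, C (t i) * X ^ (i : ℕ)))
    rintro π ⟨h, _⟩
    have h1 : π.natDegree < D + 1 := Nat.lt_succ_of_le h
    refine ⟨fun i => π.coeff i, ?_⟩
    have h2 := as_sum_range_C_mul_X_pow' (p := π) h1
    show ∑ i : Fin (D + 1), C (π.coeff i) * X ^ (i : ℕ) = π
    rw [Fin.sum_univ_eq_sum_range (fun i => C (π.coeff i) * X ^ i) (D + 1)]
    exact h2.symm
  exact ⟨hfin.toFinset, fun π => by simp⟩

lemma sq_dvd_assoc {π π' f : F[X]} (h : Associated π π') (hd : π ^ 2 ∣ f) : π' ^ 2 ∣ f :=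
  (h.pow_pow (n := 2)).dvd_iff_dvd_left.mp hd

theorem main_sq (hF : ringChar F ≠ 2) (G : Finset F[X]) (σ : F[X] → ℤ)
    (hσ : ∀ g ∈ G, σ g = 1 ∨ σ g = -1) (M a : F[X]) (hM : M ≠ 0) :
    ∃ c : ℕ, ∀ n : ℕ, c ≤ n → ∃ S : Finset F[X], Fintype.card F ^ (n / ringChar F - c) ≤ S.card ∧
      ∀ f ∈ S, f.Monic ∧ f.natDegree = n ∧ M ∣ f - a ∧
        (∀ g ∈ G, lam (f + g) = σ g) ∧
        ∀ π : F[X], Irreducible π → ¬ π ∣ M → (∃ x : F[X], ∀ g ∈ G, ¬ π ^ 2 ∣ x + g) →
          ∀ g ∈ G, ¬ π ^ 2 ∣ f + g := by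
  classical
  obtain ⟨p, hp⟩ := CharP.exists F
  have hpc : ringChar F = p := ringChar.eq F p
  have hpp : p.Prime := CharP.char_is_prime F p
  have : Fact p.Prime := ⟨hpp⟩
  rw [hpc]
  -- small admissible primes
  obtain ⟨SP, hSP⟩ := finite_small (F := F) G.card (fun π => π.Monic ∧ Irreducible π ∧ ¬ π ∣ M ∧
    ∃ x : F[X], ∀ g ∈ G, ¬ π ^ 2 ∣ x + g)
  have hxex : ∀ π : F[X], ∃ x : F[X], π ∈ SP → ∀ g ∈ G, ¬ π ^ 2 ∣ x + g := by
    intro π
    by_cases h : π ∈ SP
    · obtain ⟨x, hx⟩ := ((hSP π).mp h).2.2.2.2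
      exact ⟨x, fun _ => hx⟩
    · exact ⟨0, fun h' => absurd h' h⟩
  choose xx hxx using hxex
  obtain ⟨x1, hx1⟩ := crt_finset SP (fun π => π ^ 2) xx (by
    intro π h π' h' hne
    have h1 := (hSP π).mp h
    have h2 := (hSP π').mp h'
    exact (coprime_of_ne h1.2.1 h2.2.1 h1.2.2.1 h2.2.2.1 hne).pow)
  obtain ⟨a1, ha1, ha1'⟩ := crt_pair (A := M) (B := ∏ π ∈ SP, π ^ 2) (by
    apply IsCoprime.prod_right
    intro π h
    have h1 := (hSP π).mp h
    exact (h1.2.2.1.coprime_iff_not_dvd.mpr h1.2.2.2.1).symm.pow_right) a x1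
  set M1 : F[X] := M * ∏ π ∈ SP, π ^ 2 with hM1
  have hM1ne : M1 ≠ 0 := by
    apply mul_ne_zero hM
    apply Finset.prod_ne_zero_iff.mpr
    intro π h
    exact pow_ne_zero _ ((hSP π).mp h).2.1.ne_zero
  have hex : ∀ j : ℕ, ∃ c : ℕ, j < p → ∀ d : ℕ, c ≤ d → ∃ S : Finset F[X],
      Fintype.card F ^ (d - c) ≤ S.card ∧ ∀ f ∈ S, f.Monic ∧ f.natDegree = j + p * d ∧ M1 ∣ f - a1 ∧
        (∀ g ∈ G, lam (f + g) = σ g) ∧
        ∀ π : F[X], Irreducible π → G.card < π.natDegree → ¬ π ∣ M1 → ∀ g ∈ G,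
          ¬ π ^ 2 ∣ f + g := by
    intro j
    by_cases h : j < p
    · obtain ⟨c, hc⟩ := main_large_j hF G σ hσ M1 a1 hM1ne p j h
      exact ⟨c, fun _ => hc⟩
    · exact ⟨0, fun h' => absurd h' h⟩
  choose c hc using hex
  set C0 : ℕ := ∑ j ∈ Finset.range p, c j with hC0
  refine ⟨p * (C0 + 1), fun n hn => ?_⟩
  have hj : n % p < p := Nat.mod_lt _ hpp.pos
  have h1 : c (n % p) ≤ C0 :=
    Finset.single_le_sum (f := c) (fun i _ => Nat.zero_le _) (Finset.mem_range.mpr hj)
  have h2 : C0 + 1 ≤ n / p := by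
    rw [Nat.le_div_iff_mul_le hpp.pos, mul_comm]
    exact hn
  obtain ⟨S, hS, hS2⟩ := hc (n % p) hj (n / p) (by omega)
  refine ⟨S, le_trans (Nat.pow_le_pow_right Fintype.card_pos ?_) hS, fun f hf => ?_⟩
  · have h3 : C0 + 1 ≤ p * (C0 + 1) := Nat.le_mul_of_pos_left _ hpp.pos
    omega
  · obtain ⟨f1, f2, f3, f4, f5⟩ := hS2 f hf
    have hfa : M ∣ f - a := by
      have h1 : M ∣ f - a1 := (dvd_mul_right _ _).trans f3
      have : f - a = (f - a1) + (a1 - a) := by ring
      rw [this]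
      exact dvd_add h1 ha1
    refine ⟨f1, by rw [f2]; exact Nat.mod_add_div n p, hfa, f4, ?_⟩
    intro π hi hπM hadm g hg hdvd
    obtain ⟨π', m', i', hass, hdeg'⟩ := exists_monic_assoc hi
    have hπ'M : ¬ π' ∣ M := by rwa [← hass.dvd_iff_dvd_left]
    by_cases hsmall : π.natDegree ≤ G.card
    · have hmem : π' ∈ SP := by
        rw [hSP]
        refine ⟨by rw [hdeg']; exact hsmall, m', i', hπ'M, ?_⟩
        obtain ⟨x, hx⟩ := hadm
        exact ⟨x, fun g hg h => hx g hg (sq_dvd_assoc hass.symm h)⟩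
      apply hxx π' hmem g hg
      have e0 : π' ^ 2 ∣ ∏ π ∈ SP, π ^ 2 := Finset.dvd_prod_of_mem (fun π => π ^ 2) hmem
      have e1 : π' ^ 2 ∣ f - a1 := (e0.trans (dvd_mul_left _ _)).trans f3
      have e2 : π' ^ 2 ∣ a1 - x1 := e0.trans ha1'
      have e3 : π' ^ 2 ∣ x1 - xx π' := hx1 π' hmem
      have e4 : π' ^ 2 ∣ f + g := sq_dvd_assoc hass hdvd
      have : xx π' + g = (f + g) - ((f - a1) + (a1 - x1) + (x1 - xx π')) := by ring
      rw [this]
      exact dvd_sub e4 (dvd_add (dvd_add e1 e2) e3)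
    · push Not at hsmall
      apply f5 π hi hsmall _ g hg hdvd
      intro hd
      rcases hi.prime.dvd_or_dvd hd with h | h
      · exact hπM h
      · obtain ⟨π'', hπ'', h''⟩ := (hi.prime.dvd_finsetProd_iff _).mp h
        have h3 := (hSP π'').mp hπ''
        have h4 : π ∣ π'' := hi.prime.dvd_of_dvd_pow h''
        have h5 := natDegree_le_of_dvd h4 h3.2.1.ne_zero
        omega

/-- The theorem for families of linear forms. -/
theorem linear_forms (hF : ringChar F ≠ 2) {ι : Type*} [Fintype ι] (A B : ι → F[X])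
    (hA : ∀ i, A i ≠ 0) (hAB : ∀ i j, i ≠ j → A i * B j ≠ A j * B i) (σ : ι → ℤ)
    (hσ : ∀ i, σ i = 1 ∨ σ i = -1) :
    ∃ c : ℕ, ∀ n : ℕ, c ≤ n → ∃ S : Finset F[X], Fintype.card F ^ (n / ringChar F - c) ≤ S.card ∧
      ∀ f ∈ S, f.Monic ∧ f.natDegree = n ∧ (∀ i, lam (A i * f + B i) = σ i) ∧
        ∀ π : F[X], Irreducible π → (∃ x : F[X], ∀ i, ¬ π ^ 2 ∣ A i * x + B i) →
          ∀ i, ¬ π ^ 2 ∣ A i * f + B i := by
  classical
  -- a monic common multiple
  have hprod : ∏ i, A i ≠ 0 := Finset.prod_ne_zero_iff.mpr (fun i _ => hA i)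
  set M0 : F[X] := (∏ i, A i) * C (∏ i, A i).leadingCoeff⁻¹ with hM0
  have hM0m : M0.Monic := monic_mul_leadingCoeff_inv hprod
  have hQex : ∀ i, ∃ Q : F[X], M0 = A i * Q := by
    intro i
    exact (Finset.dvd_prod_of_mem A (Finset.mem_univ i)).trans (dvd_mul_right _ _)
  choose Q hQ using hQex
  have hQ0 : ∀ i, Q i ≠ 0 := by
    intro i h
    have := hQ i
    rw [h, mul_zero] at this
    exact hM0m.ne_zero this
  -- primes dividing M0
  obtain ⟨L0, hL0⟩ := finite_factors M0 hM0m.ne_zero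
  set L : Finset F[X] := L0.filter (fun π => ∃ x : F[X], ∀ i, ¬ π ^ 2 ∣ A i * x + B i) with hL
  have hLmem : ∀ π, π ∈ L ↔ (π.Monic ∧ Irreducible π ∧ π ∣ M0) ∧
      ∃ x : F[X], ∀ i, ¬ π ^ 2 ∣ A i * x + B i := by
    intro π
    rw [hL, Finset.mem_filter, hL0]
  have hxex : ∀ π : F[X], ∃ x : F[X], π ∈ L → ∀ i, ¬ π ^ 2 ∣ A i * x + B i := by
    intro π
    by_cases h : π ∈ L
    · obtain ⟨x, hx⟩ := ((hLmem π).mp h).2
      exact ⟨x, fun _ => hx⟩
    · exact ⟨0, fun h' => absurd h' h⟩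
  choose xx hxx using hxex
  obtain ⟨xa, hxa⟩ := crt_finset L (fun π => π ^ 2) xx (by
    intro π h π' h' hne
    have h1 := ((hLmem π).mp h).1
    have h2 := ((hLmem π').mp h').1
    exact (coprime_of_ne h1.1 h2.1 h1.2.1 h2.2.1 hne).pow)
  set M : F[X] := M0 * ∏ π ∈ L, π ^ 2 with hM
  have hM0' : M ≠ 0 := by
    apply mul_ne_zero hM0m.ne_zero
    apply Finset.prod_ne_zero_iff.mpr
    intro π h
    exact pow_ne_zero _ ((hLmem π).mp h).1.1.ne_zero
  set g : ι → F[X] := fun i => Q i * B i with hg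
  have hginj : Function.Injective g := by
    intro i k hik
    by_contra hne
    apply hAB i k hne
    simp only [hg] at hik
    -- Q i B i = Q k B k
    apply mul_left_cancel₀ hM0m.ne_zero
    calc M0 * (A i * B k) = A i * (A k * (Q k * B k)) := by
          conv_lhs => rw [hQ k]
          ring
      _ = A i * (A k * (Q i * B i)) := by rw [hik]
      _ = M0 * (A k * B i) := by
          conv_rhs => rw [hQ i]
          ring
  set σ' : F[X] → ℤ := Function.extend g (fun i => lam (Q i) * σ i) (fun _ => 1) with hσ'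
  have hσ'g : ∀ i, σ' (g i) = lam (Q i) * σ i := by
    intro i
    rw [hσ', hginj.extend_apply]
  obtain ⟨c, hc⟩ := main_sq hF (Finset.univ.image g) σ' (by
    intro y hy
    rw [Finset.mem_image] at hy
    obtain ⟨i, _, rfl⟩ := hy
    rw [hσ'g]
    rcases lam_eq (Q i) with h | h <;> rcases hσ i with h' | h' <;> simp [h, h'])
    M (M0 * xa) hM0'
  refine ⟨c + ∑ i, (g i).natDegree + 1, fun n hn => ?_⟩
  obtain ⟨S, hS1, hS2⟩ := hc (n + M0.natDegree) (by omega)
  have hdiv : ∀ f ∈ S, M0 * (f /ₘ M0) = f := by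
    intro f hf
    obtain ⟨_, _, h3, _⟩ := hS2 f hf
    have h4 : M0 ∣ f := by
      have h5 : M0 ∣ f - M0 * xa := (dvd_mul_right _ _).trans h3
      have : f = (f - M0 * xa) + M0 * xa := by ring
      rw [this]
      exact dvd_add h5 (dvd_mul_right _ _)
    obtain ⟨f1, rfl⟩ := h4
    rw [mul_divByMonic_cancel_left _ hM0m]
  refine ⟨S.image (fun f => f /ₘ M0), ?_, ?_⟩
  · rw [Finset.card_image_of_injOn]
    · refine le_trans (Nat.pow_le_pow_right Fintype.card_pos ?_) hS1
      have h1 : n / ringChar F ≤ (n + M0.natDegree) / ringChar F :=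
        Nat.div_le_div_right (Nat.le_add_right _ _)
      omega
    · intro f1 h1 f2 h2 h12
      simp only at h12
      rw [← hdiv f1 h1, ← hdiv f2 h2, h12]
  · intro f hf
    rw [Finset.mem_image] at hf
    obtain ⟨fs, hfs, rfl⟩ := hf
    obtain ⟨m1, d1, c1, l1, s1⟩ := hS2 fs hfs
    have e1 := hdiv fs hfs
    set f : F[X] := fs /ₘ M0 with hfdef
    have hfm : f.Monic := hM0m.of_mul_monic_left (by rw [e1]; exact m1)
    have hfd : f.natDegree = n := by
      have h1 := congrArg natDegree e1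
      rw [hM0m.natDegree_mul hfm, d1] at h1
      omega
    have hform : ∀ i, fs + g i = Q i * (A i * f + B i) := by
      intro i
      rw [← e1]
      simp only [hg]
      conv_lhs => rw [hQ i]
      ring
    have hne : ∀ i, A i * f + B i ≠ 0 := by
      intro i h0
      have h1 := hform i
      rw [h0, mul_zero] at h1
      have h2 : fs = -(g i) := eq_neg_of_add_eq_zero_left h1
      have h3 := congrArg natDegree h2
      rw [natDegree_neg, d1] at h3
      have h4 : (g i).natDegree ≤ ∑ i, (g i).natDegree :=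
        Finset.single_le_sum (f := fun i => (g i).natDegree) (fun i _ => Nat.zero_le _)
          (Finset.mem_univ i)
      omega
    refine ⟨hfm, hfd, ?_, ?_⟩
    · intro i
      have h1 := l1 (g i) (Finset.mem_image_of_mem _ (Finset.mem_univ i))
      rw [hσ'g, hform, lam_mul (hQ0 i) (hne i)] at h1
      have h2 : lam (Q i) ≠ 0 := by
        rcases lam_eq (Q i) with h | h <;> rw [h] <;> norm_num
      exact mul_left_cancel₀ h2 h1
    · intro π hi hadm i hdvd
      obtain ⟨π', m', i', hass, hdeg'⟩ := exists_monic_assoc hi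
      by_cases hπ : π ∣ M0
      · have hmem : π' ∈ L := by
          rw [hLmem]
          refine ⟨⟨m', i', hass.dvd_iff_dvd_left.mp hπ⟩, ?_⟩
          obtain ⟨x, hx⟩ := hadm
          exact ⟨x, fun i h => hx i (sq_dvd_assoc hass.symm h)⟩
        apply hxx π' hmem i
        have e0 : π' ^ 2 ∣ ∏ π ∈ L, π ^ 2 := Finset.dvd_prod_of_mem (fun π => π ^ 2) hmem
        have e2 : (∏ π ∈ L, π ^ 2) ∣ f - xa := by
          have h1 : M0 * ∏ π ∈ L, π ^ 2 ∣ M0 * (f - xa) := by
            have : M0 * (f - xa) = fs - M0 * xa := by rw [← e1]; ring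
            rw [this]
            exact c1
          exact (mul_dvd_mul_iff_left hM0m.ne_zero).mp h1
        have e3 : π' ^ 2 ∣ f - xx π' := by
          have : f - xx π' = (f - xa) + (xa - xx π') := by ring
          rw [this]
          exact dvd_add (e0.trans e2) (hxa π' hmem)
        have e4 : π' ^ 2 ∣ A i * f + B i := sq_dvd_assoc hass hdvd
        have : A i * xx π' + B i = (A i * f + B i) - A i * (f - xx π') := by ring
        rw [this]
        exact dvd_sub e4 (e3.mul_left _)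
      · have hπQ : ∀ i, ¬ π ∣ Q i := by
          intro i h
          apply hπ
          rw [hQ i]
          exact h.mul_left _
        have hπM : ¬ π ∣ M := by
          intro hd
          rcases hi.prime.dvd_or_dvd hd with h | h
          · exact hπ h
          · obtain ⟨π'', hπ'', h''⟩ := (hi.prime.dvd_finsetProd_iff _).mp h
            have h3 := (hLmem π'').mp hπ''
            exact hπ ((hi.prime.dvd_of_dvd_pow h'').trans h3.1.2.2)
        refine s1 π hi hπM ?_ (g i) (Finset.mem_image_of_mem _ (Finset.mem_univ i)) ?_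
        · obtain ⟨x, hx⟩ := hadm
          refine ⟨M0 * x, ?_⟩
          intro y hy
          rw [Finset.mem_image] at hy
          obtain ⟨k, _, rfl⟩ := hy
          intro h
          apply hx k
          have h1 : M0 * x + g k = Q k * (A k * x + B k) := by
            simp only [hg]
            conv_lhs => rw [hQ k]
            ring
          rw [h1] at h
          have h2 : IsCoprime (π ^ 2) (Q k) :=
            (hi.coprime_iff_not_dvd.mpr (hπQ k)).pow_left
          exact h2.dvd_of_dvd_mul_left h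
        · rw [hform]
          exact hdvd.mul_left _

end Pool.Agent.helper36.FF
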